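import Pool.Agent.Work.MP_e4a69c_an.SU.Core

/-! Multilinear suspensions: the definitions used in the statement. -/

set_option autoImplicit false

namespace Pool.Agent.Work.MP_e4a69c_an.ML

open scoped Manifold ContDiff Topology
open Pool.Agent.Work.MP_e4a69c_an.SU

section

variable {𝔤 : Type} [NormedAddCommGroup 𝔤] [NormedSpace ℂ 𝔤]
variable {G : Type} [TopologicalSpace G] [ChartedSpace 𝔤 G] [Group G]
variable {V : Type} [NormedAddCommGroup V] [NormedSpace ℂ V]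
variable {ι : Type} [Fintype ι] {M : ι → Type} [∀ i, NormedAddCommGroup (M i)]
  [∀ i, NormedSpace ℂ (M i)] {B : Type} [NormedAddCommGroup B] [NormedSpace ℂ B]

/-- The vector `g v` of the G-module `V`. -/
def ac (ρ : GMod 𝔤 G V) (g : G) (v : V) : V := ρ.act g v

/-- The vectors of the G-module `V` which are fixed by `N`. -/
def fixS (N : Subgroup G) (ρ : GMod 𝔤 G V) : Set V := {v | ∀ n ∈ N, ρ.act n v = v}

/-- The value of the multilinear form `f` at `x`. -/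
noncomputable def ev (f : ContinuousMultilinearMap ℂ M ℂ) (x : ∀ i, M i) : ℂ := f x

/-- `ρV` is the product of the modules `M i` and `B`. -/
def IsProd (ρ : ∀ i, GMod 𝔤 G (M i)) (ρB : GMod 𝔤 G B) (ρV : GMod 𝔤 G ((∀ i, M i) × B)) : Prop :=
  ∀ g x z, ac ρV g (x, z) = (fun i => ac (ρ i) g (x i), ac ρB g z)

/-- The multilinear form `f` with values in the one dimensional module `ρL` is equivariant. -/
def IsEqui (ρ : ∀ i, GMod 𝔤 G (M i)) (ρL : GMod 𝔤 G ℂ) (f : ContinuousMultilinearMap ℂ M ℂ) :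
    Prop := ∀ g x, ev f (fun i => ac (ρ i) g (x i)) = ac ρL g (ev f x)

/-- `p` is an equivariant entire function on the module `B`, on which `N` acts trivially, with
`dp ≠ 0` on `{p = 0}`. -/
structure IsBase (N : Subgroup G) (ρL : GMod 𝔤 G ℂ) (ρB : GMod 𝔤 G B) (p : B → ℂ) : Prop where
  hol : Differentiable ℂ p
  equi : ∀ g z, p (ac ρB g z) = ac ρL g (p z)
  smooth : ∀ z, p z = 0 → fderiv ℂ p z ≠ 0
  triv : ∀ n ∈ N, ∀ z, ac ρB n z = z

/-- `x` is fixed by `N`. -/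
def Fixed (N : Subgroup G) (ρ : ∀ i, GMod 𝔤 G (M i)) (x : ∀ i, M i) : Prop :=
  ∀ i, x i ∈ fixS N (ρ i)

/-- The hypersurface `Y = {(x,z) : f(x) = p(z)}`. -/
def Yf (f : ContinuousMultilinearMap ℂ M ℂ) (p : B → ℂ) : Set ((∀ i, M i) × B) :=
  {y | ev f y.1 = p y.2}

/-- The tangent spaces of `Y`: `∑ i, f(x with τ_i in the slot i) = dp(z)(b)`. -/
def Tf [DecidableEq ι] (f : ContinuousMultilinearMap ℂ M ℂ) (p : B → ℂ) :
    (∀ i, M i) × B → Set ((∀ i, M i) × B) :=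
  fun y => {τ | ∑ i, ev f (Function.update y.1 i (τ.1 i)) = fderiv ℂ p y.2 τ.2}

/-- `Y` is G-elliptic. -/
def EllY [DecidableEq ι] (ρV : GMod 𝔤 G ((∀ i, M i) × B)) (f : ContinuousMultilinearMap ℂ M ℂ)
    (p : B → ℂ) : Prop := GEll ρV (Yf f p) (Tf f p)

/-- The fixed locus of `N` in `Y` is G-elliptic. -/
def EllYN [DecidableEq ι] (N : Subgroup G) (ρV : GMod 𝔤 G ((∀ i, M i) × B))
    (f : ContinuousMultilinearMap ℂ M ℂ) (p : B → ℂ) : Prop :=
  GEll ρV (Yf f p ∩ fixS N ρV) (fun y => Tf f p y ∩ fixS N ρV)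

/-- `C = {p = 0}` is G-elliptic. -/
def EllC (ρB : GMod 𝔤 G B) (p : B → ℂ) : Prop :=
  GEll ρB {z | p z = 0} (fun z => {b | fderiv ℂ p z b = 0})

end

end Pool.Agent.Work.MP_e4a69c_an.ML
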