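import Pool.Agent.Work.MP_e4a69c_an.SU.All

/-! Multilinear suspensions (MP_e4a69c_an, theorem ML, note 4838). -/

set_option autoImplicit false

namespace Pool.Agent.Work.MP_e4a69c_an.ML

open scoped Manifold ContDiff Topology
open Pool.Agent.Work.MP_e4a69c_an.SU

section

variable {ι : Type} [DecidableEq ι] {M : ι → Type} [∀ i, NormedAddCommGroup (M i)]
  [∀ i, NormedSpace ℂ (M i)] {B : Type} [NormedAddCommGroup B] [NormedSpace ℂ B]

/-- The slope `c_j(x)` of the multilinear form `f` in the slot `j`: `c_j(x)(m) = f(x with m in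
slot j)`. -/
noncomputable def sl (f : ContinuousMultilinearMap ℂ M ℂ) (x : ∀ i, M i) (j : ι) : M j →L[ℂ] ℂ :=
  f.toContinuousLinearMap x j

@[simp] theorem sl_apply (f : ContinuousMultilinearMap ℂ M ℂ) (x : ∀ i, M i) (j : ι) (m : M j) :
    sl f x j m = f (Function.update x j m) := rfl

/-- `F(x,z) = f(x) - p(z)` -/
noncomputable def fs (f : ContinuousMultilinearMap ℂ M ℂ) (p : B → ℂ) : (∀ i, M i) × B → ℂ :=
  fun y => f y.1 - p y.2

/-- velocities of the shear in the slot `j`; here `α = dp(z)` -/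
def RI (f : ContinuousMultilinearMap ℂ M ℂ) (α : B →L[ℂ] ℂ) (j : ι) (x : ∀ i, M i) :
    Set ((∀ i, M i) × B) :=
  {τ | ∃ t : (M j →L[ℂ] ℂ) →L[ℂ] B, (∀ k, k ≠ j → τ.1 k = 0) ∧
    (∀ ζ : M j →L[ℂ] ℂ, ζ (τ.1 j) = α (t ζ)) ∧ τ.2 = t (sl f x j)}

/-- velocities of the skew sprays in the slot `j` -/
def RK (f : ContinuousMultilinearMap ℂ M ℂ) (j : ι) (x : ∀ i, M i) : Set ((∀ i, M i) × B) :=
  {τ | sl f x j ≠ 0 ∧ (∀ k, k ≠ j → τ.1 k = 0) ∧ sl f x j (τ.1 j) = 0 ∧ τ.2 = 0}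

/-- velocities of the scalings in the slots `j`, `k` -/
def RS (j k : ι) (x : ∀ i, M i) : Set ((∀ i, M i) × B) :=
  {τ | ∃ a : ℂ, j ≠ k ∧ τ.1 j = a • x j ∧ τ.1 k = -(a • x k) ∧
    (∀ i, i ≠ j → i ≠ k → τ.1 i = 0) ∧ τ.2 = 0}

end

end Pool.Agent.Work.MP_e4a69c_an.ML
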