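import Pool.Agent.Work.MP_e4a69c_an.ML.Stmts

/-! Theorem ML (MP_e4a69c_an), item AA: transfer from `C` to `Y`. -/

set_option autoImplicit false

namespace Pool.Agent.Work.MP_e4a69c_an.ML

open scoped Manifold ContDiff Topology
open Pool.Agent.Work.MP_e4a69c_an.SU

namespace IAA

/-- the union over the slots of covered sets is covered -/
theorem cover_iUnion {𝔤 : Type} [NormedAddCommGroup 𝔤] [NormedSpace ℂ 𝔤]
    {G : Type} [TopologicalSpace G] [ChartedSpace 𝔤 G] [Group G]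
    {V : Type} [NormedAddCommGroup V] [NormedSpace ℂ V] {ρ : GMod 𝔤 G V} {F : V → ℂ}
    {ι : Type} [Fintype ι] (R : ι → V → Set V) (h : ∀ j, Covers ρ F (R j)) :
    Covers ρ F (fun y => ⋃ j, R j y) := by
  obtain ⟨W, i1, i2, i3, σ, S, d⟩ := aCF 𝔤 G V ρ F (Fintype.card ι)
    (fun k => R ((Fintype.equivFin ι).symm k)) (fun k => h _)
  refine ⟨W, i1, i2, i3, σ, S, fun y hy τ hτ => d y hy τ ?_⟩
  rw [Set.mem_iUnion] at hτ ⊢
  obtain ⟨j, hj⟩ := hτ
  exact ⟨Fintype.equivFin ι j, by rw [Equiv.symm_apply_apply]; exact hj⟩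

end IAA

/-- AA: transfer from `C` to `Y`. -/
theorem pr_AA (hBA : StBA) (hMI : StMI) (hMZ : StMZ) (hDS : StDS) : StAA := by
  intro 𝔤 _ _ G _ _ _ _ ι _ _ hne0 M _ _ _ B _ _ _ ρ ρL ρB ρV f p hV hf hp hpe hs hE
  have h0 := hBA 𝔤 G ι M B ρ ρL ρB ρV f p hV hf hp hpe hs
  have h1 := IAA.cover_iUnion _ (hMI 𝔤 G ι M B ρ ρL ρB ρV f p hV hf hp hpe)
  obtain ⟨j0⟩ := hne0
  obtain ⟨W, i1, i2, i3, σ, S, hS⟩ := hMZ 𝔤 G ι M B ρ ρL ρB ρV f p hV hp hpe hs hE j0
  have h2 : Covers ρV (fs f p)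
      (fun y => {τ | ∃ w : W, fderiv ℂ (fun w : W => S.s (y, w)) 0 w = τ}) :=
    ⟨W, i1, i2, i3, σ, S, fun y hy τ hτ => hτ⟩
  obtain ⟨W', i1', i2', i3', σ', S', d⟩ := pr_CC 𝔤 G _ ρV (fs f p) _ _
    (pr_CC 𝔤 G _ ρV (fs f p) _ _ h0 h1) h2
  refine ⟨W', i1', i2', i3', σ', S', fun y hy τ hτ => d y hy τ ?_⟩
  by_cases hne : ∃ j, sl f y.1 j ≠ 0
  · exact Submodule.subset_span (Or.inl (Submodule.subset_span (Or.inl ⟨hne, hτ⟩)))
  · push Not at hne
    have hF : f y.1 - p y.2 = 0 := hy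
    have hfx : f y.1 = 0 := by
      have h4 : sl f y.1 j0 (y.1 j0) = f y.1 := by
        rw [sl_apply, Function.update_eq_self]
      rw [← h4, hne j0]
      rfl
    have hpz : p y.2 = 0 := by
      rw [hfx] at hF
      linear_combination -hF
    have hb : fderiv ℂ p y.2 τ.2 = 0 := by
      rw [((hDS ι M B f).2.2 p hp).2 y τ] at hτ
      have h5 : ∑ j, sl f y.1 j (τ.1 j) = 0 :=
        Finset.sum_eq_zero (fun j _ => by rw [hne j]; rfl)
      rw [h5] at hτ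
      linear_combination -hτ
    obtain ⟨w, hw1, hw2⟩ := hS y hy hpz τ.2 hb
    obtain ⟨b0, hb0⟩ : ∃ b0, fderiv ℂ p y.2 b0 ≠ 0 := by
      by_contra hcon
      push Not at hcon
      exact hs y.2 hpz (ContinuousLinearMap.ext hcon)
    obtain ⟨b, hb1⟩ : ∃ b, fderiv ℂ p y.2 b = 1 :=
      ⟨(fderiv ℂ p y.2 b0)⁻¹ • b0, by rw [map_smul, smul_eq_mul, inv_mul_cancel₀ hb0]⟩
    have hin : ∀ (k : ι) (m : M k), ((Pi.single k m, 0) : (∀ i, M i) × B) ∈
        RI f (fderiv ℂ p y.2) k y.1 := by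
      intro k m
      refine ⟨(ContinuousLinearMap.apply ℂ ℂ m).smulRight b, ?_, ?_, ?_⟩
      · intro i hi
        exact Pi.single_eq_of_ne hi m
      · intro ζ
        simp [hb1]
      · rw [hne k, map_zero]
    have hsum : τ = fderiv ℂ (fun w : W => S.s (y, w)) 0 w +
        ∑ k, ((Pi.single k (τ.1 k - (fderiv ℂ (fun w : W => S.s (y, w)) 0 w).1 k), 0) :
          (∀ i, M i) × B) := by
      refine Prod.ext ?_ ?_
      · rw [Prod.fst_add, Prod.fst_sum]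
        show τ.1 = (fderiv ℂ (fun w : W => S.s (y, w)) 0 w).1 +
          ∑ k, Pi.single k (τ.1 k - (fderiv ℂ (fun w : W => S.s (y, w)) 0 w).1 k)
        rw [Finset.univ_sum_single
          (fun k => τ.1 k - (fderiv ℂ (fun w : W => S.s (y, w)) 0 w).1 k)]
        funext k
        show τ.1 k = (fderiv ℂ (fun w : W => S.s (y, w)) 0 w).1 k +
          (τ.1 k - (fderiv ℂ (fun w : W => S.s (y, w)) 0 w).1 k)
        rw [add_sub_cancel]
      · rw [Prod.snd_add, Prod.snd_sum, hw1]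
        simp
    rw [hsum]
    refine Submodule.add_mem _ (Submodule.subset_span (Or.inr ⟨w, rfl⟩))
      (Submodule.sum_mem _ (fun k _ => ?_))
    exact Submodule.subset_span (Or.inl (Submodule.subset_span (Or.inr
      (Set.mem_iUnion.mpr ⟨k, hin k _⟩))))

end Pool.Agent.Work.MP_e4a69c_an.ML
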