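import Pool.Agent.Work.MP_e4a69c_an.ML.Stmts

set_option autoImplicit false

namespace Pool.Agent.Work.MP_e4a69c_an.ML

open scoped Manifold ContDiff Topology
open Pool.Agent.Work.MP_e4a69c_an.SU

namespace IBA

section

variable {𝔤 : Type} [NormedAddCommGroup 𝔤] [NormedSpace ℂ 𝔤]
  {G : Type} [TopologicalSpace G] [ChartedSpace 𝔤 G] [Group G]
  {V : Type} [NormedAddCommGroup V] [NormedSpace ℂ V] {ρ : GMod 𝔤 G V} {F : V → ℂ}

/-- `Covers` is monotone in the ranges, at the points of the hypersurface. -/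
theorem mono {R R' : V → Set V} (h : Covers ρ F R) (hs : ∀ y, F y = 0 → R' y ⊆ R y) :
    Covers ρ F R' := by
  obtain ⟨W, i1, j1, k1, σ, S, d⟩ := h
  exact ⟨W, i1, j1, k1, σ, S, fun y hy τ hτ => d y hy τ (hs y hy hτ)⟩

/-- Finite unions. -/
theorem iUnion {κ : Type} [Fintype κ] {R : κ → V → Set V} (h : ∀ j, Covers ρ F (R j)) :
    Covers ρ F (fun y => ⋃ j, R j y) := by
  have e := Fintype.equivFin κ
  have h1 := aCF 𝔤 G V ρ F (Fintype.card κ) (fun i => R (e.symm i)) (fun i => h (e.symm i))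
  refine mono h1 (fun y _ => ?_)
  intro τ hτ
  obtain ⟨j, hj⟩ := Set.mem_iUnion.1 hτ
  refine Set.mem_iUnion.2 ⟨e j, ?_⟩
  rw [Equiv.symm_apply_apply]
  exact hj

end

end IBA

open IBA in
theorem pr_BA (hMI : StMI) (hMK : StMK) (hMS : StMS) (hLA : StLA) (hDS : StDS) : StBA := by
  intro 𝔤 _ _ G _ _ _ _ ι _ _ M _ _ _ B _ _ _ ρ ρL ρB ρV f p hV hf hp heq hs
  have h1 : Covers ρV (fs f p) (fun y => ⋃ j, RI f (fderiv ℂ p y.2) j y.1) :=
    iUnion (R := fun j y => RI f (fderiv ℂ p y.2) j y.1)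
      (fun j => hMI 𝔤 G ι M B ρ ρL ρB ρV f p hV hf hp heq j)
  have h2 : Covers ρV (fs f p) (fun y => ⋃ j, RK f j y.1) :=
    iUnion (R := fun j y => RK f j y.1)
      (fun j => hMK 𝔤 G ι M B ρ ρL ρB ρV f p hV hf j)
  have h3 : Covers ρV (fs f p) (fun y => ⋃ jk : ι × ι, RS jk.1 jk.2 y.1) :=
    iUnion (R := fun (jk : ι × ι) y => RS jk.1 jk.2 y.1)
      (fun jk => hMS 𝔤 G ι M B ρ ρB ρV f p hV jk.1 jk.2)
  have h4 := pr_CC 𝔤 G _ _ _ _ _ (pr_CC 𝔤 G _ _ _ _ _ h1 h2) h3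
  refine mono h4 ?_
  rintro ⟨x, z⟩ hy τ ⟨⟨j0, hj0⟩, hτ⟩
  have hF : f x - p z = 0 := hy
  have hα : f x = 0 → fderiv ℂ p z ≠ 0 := by
    intro h
    apply hs z
    rw [h] at hF
    linear_combination -hF
  have hd := ((hDS ι M B f).2.2 p hp).2 (x, z) τ
  rw [hτ] at hd
  have hsum : ∑ j, sl f x j (τ.1 j) = fderiv ℂ p z τ.2 := (sub_eq_zero.1 hd.symm)
  have h5 := hLA ι M B f (fderiv ℂ p z) x j0 hj0 hα τ hsum
  refine Submodule.span_le.mpr ?_ h5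
  rintro u ((hu | hu) | hu)
  · exact Submodule.subset_span (Or.inl (Submodule.subset_span (Or.inl hu)))
  · exact Submodule.subset_span (Or.inl (Submodule.subset_span (Or.inr hu)))
  · refine Submodule.subset_span (Or.inr ?_)
    obtain ⟨j, hj⟩ := Set.mem_iUnion.1 hu
    obtain ⟨k, hk⟩ := Set.mem_iUnion.1 hj
    exact Set.mem_iUnion.2 ⟨(j, k), hk⟩

end Pool.Agent.Work.MP_e4a69c_an.ML
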