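import Pool.Agent.Work.MP_e4a69c_an.ML.Stmts

/-! Theorem ML, item DS: the slopes of a multilinear form (helper98). -/

set_option autoImplicit false

namespace Pool.Agent.Work.MP_e4a69c_an.ML

open scoped Manifold ContDiff Topology
open Pool.Agent.Work.MP_e4a69c_an.SU

namespace IDS

section

variable {ι : Type} [Fintype ι] [DecidableEq ι] {M : ι → Type} [∀ i, NormedAddCommGroup (M i)]
  [∀ i, NormedSpace ℂ (M i)]

theorem contDiff_update_fun (j : ι) (m : M j) :
    ContDiff ℂ 1 (fun x : ∀ i, M i => Function.update x j m) := by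
  rw [contDiff_pi]
  intro i
  by_cases h : i = j
  · subst h
    simp only [Function.update_self]
    exact contDiff_const
  · simp only [Function.update_of_ne h]
    exact (ContinuousLinearMap.proj (R := ℂ) (φ := M) i).contDiff

theorem differentiable_sl [∀ i, FiniteDimensional ℂ (M i)] (f : ContinuousMultilinearMap ℂ M ℂ)
    (j : ι) : Differentiable ℂ (fun x => sl f x j) := by
  have h : ContDiff ℂ 1 (fun x => sl f x j) := by
    rw [contDiff_clm_apply_iff]
    intro m
    have h1 : ContDiff ℂ 1 (fun x : ∀ i, M i => f x) := f.contDiff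
    exact h1.comp (contDiff_update_fun j m)
  exact h.differentiable one_ne_zero

end

end IDS

theorem pr_DS : StDS := by
  intro ι _ _ M _ _ _ B _ _ f
  refine ⟨?_, IDS.differentiable_sl f, ?_⟩
  · intro x j m
    ext m'
    simp only [sl_apply, Function.update_idem]
  · intro p hp
    have hd : ∀ y : (∀ i, M i) × B, HasFDerivAt (fs f p)
        ((f.linearDeriv y.1).comp (ContinuousLinearMap.fst ℂ (∀ i, M i) B) -
          (fderiv ℂ p y.2).comp (ContinuousLinearMap.snd ℂ (∀ i, M i) B)) y := by
      intro y
      have h1 : HasFDerivAt (fun y : (∀ i, M i) × B => f y.1)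
          ((f.linearDeriv y.1).comp (ContinuousLinearMap.fst ℂ (∀ i, M i) B)) y :=
        (f.hasFDerivAt y.1).comp y hasFDerivAt_fst
      have h2 : HasFDerivAt (fun y : (∀ i, M i) × B => p y.2)
          ((fderiv ℂ p y.2).comp (ContinuousLinearMap.snd ℂ (∀ i, M i) B)) y :=
        (hp y.2).hasFDerivAt.comp y hasFDerivAt_snd
      exact h1.sub h2
    refine ⟨fun y => (hd y).differentiableAt, fun y τ => ?_⟩
    rw [(hd y).fderiv]
    simp only [sub_apply, ContinuousLinearMap.comp_apply,
      ContinuousLinearMap.coe_fst', ContinuousLinearMap.coe_snd',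
      ContinuousMultilinearMap.linearDeriv_apply, sl_apply]

end Pool.Agent.Work.MP_e4a69c_an.ML
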