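import Pool.Agent.Work.MP_e4a69c_an.ML.Stmts

/-! MP_e4a69c_an, theorem ML, item EQ: equivariance of the slopes. -/

set_option autoImplicit false

namespace Pool.Agent.Work.MP_e4a69c_an.ML

open scoped Manifold ContDiff Topology
open Pool.Agent.Work.MP_e4a69c_an.SU

namespace IEQ

theorem inv_act {𝔤 : Type} [NormedAddCommGroup 𝔤] [NormedSpace ℂ 𝔤]
    {G : Type} [TopologicalSpace G] [ChartedSpace 𝔤 G] [Group G]
    {V : Type} [NormedAddCommGroup V] [NormedSpace ℂ V] (a : GMod 𝔤 G V) (g : G) (m : V) :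
    a.act g (a.act g⁻¹ m) = m := by
  rw [← GMod.act_mul, mul_inv_cancel]
  simp

end IEQ

theorem pr_EQ : StEQ := by
  intro 𝔤 _ _ G _ _ _ _ ι _ _ M _ _ ρ ρL f hf g x j
  apply ContinuousLinearMap.ext
  intro m
  have h1 : ((ρ j).hom ρL).act g (sl f x j) m = ρL.act g (sl f x j ((ρ j).act g⁻¹ m)) := rfl
  rw [h1, sl_apply, sl_apply, ← hf]
  congr 1
  funext i
  by_cases h : i = j
  · subst h
    rw [Function.update_self, Function.update_self, IEQ.inv_act]
  · rw [Function.update_of_ne h, Function.update_of_ne h]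

end Pool.Agent.Work.MP_e4a69c_an.ML
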