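import Pool.Agent.Work.MP_e4a69c_an.ML.Stmts

set_option autoImplicit false

/-! Item IE of block ML: inclusion and exclusion -/

namespace Pool.Agent.Work.MP_e4a69c_an.ML

open scoped Manifold ContDiff Topology
open Pool.Agent.Work.MP_e4a69c_an.SU

namespace IIE

section

variable {ι : Type} [DecidableEq ι] {M : ι → Type} [∀ i, NormedAddCommGroup (M i)]
  [∀ i, NormedSpace ℂ (M i)]

/-- the vector with coordinate `u i` on `A`, `x i + u i` on `S`, `x i` elsewhere -/
def vv (x u : ∀ i, M i) (A S : Finset ι) (i : ι) : M i :=
  if i ∈ A then u i else if i ∈ S then x i + u i else x i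

omit [∀ i, NormedSpace ℂ (M i)] in
lemma vv_insert (x u : ∀ i, M i) (A S : Finset ι) (j : ι) :
    vv x u (insert j A) S = Function.update (vv x u A S) j (u j) := by
  funext i
  by_cases h : i = j
  · subst h
    simp [vv]
  · simp [vv, Function.update_of_ne h, h]

omit [∀ i, NormedSpace ℂ (M i)] in
lemma vv_insert' (x u : ∀ i, M i) (A S : Finset ι) (j : ι) (hA : j ∉ A) :
    vv x u A (insert j S) = Function.update (vv x u A S) j (x j + u j) := by
  funext i
  by_cases h : i = j
  · subst h
    simp [vv, hA]
  · simp [vv, Function.update_of_ne h, h]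

omit [∀ i, NormedSpace ℂ (M i)] in
lemma vv_self (x u : ∀ i, M i) (A S : Finset ι) (j : ι) (hA : j ∉ A) (hS : j ∉ S) :
    vv x u A S = Function.update (vv x u A S) j (x j) := by
  funext i
  by_cases h : i = j
  · subst h
    simp [vv, hA, hS]
  · simp [Function.update_of_ne h]

lemma claim (f : ContinuousMultilinearMap ℂ M ℂ) (x u : ∀ i, M i)
    (h : ∀ S : Finset ι, f (fun i => if i ∈ S then x i + u i else x i) = 0) (A : Finset ι) :
    ∀ S : Finset ι, Disjoint A S → f (vv x u A S) = 0 := by
  induction A using Finset.induction_on with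
  | empty =>
    intro S _
    have e : vv x u ∅ S = fun i => if i ∈ S then x i + u i else x i := by
      funext i
      simp [vv]
    rw [e]
    exact h S
  | insert j A hj ih =>
    intro S hS
    rw [Finset.disjoint_insert_left] at hS
    rw [vv_insert]
    have e : u j = (x j + u j) - x j := by abel
    rw [e, f.map_update_sub, ← vv_insert' x u A S j hj, ← vv_self x u A S j hj hS.1,
      ih S hS.2, ih (insert j S) (by
        rw [Finset.disjoint_insert_right]
        exact ⟨hj, hS.2⟩), sub_zero]

end

end IIE

/-- item IE -/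
theorem pr_IE : StIE := by
  intro ι _ _ M _ _ f x u h
  have := IIE.claim f x u h Finset.univ ∅ (Finset.disjoint_empty_right _)
  have e : IIE.vv x u Finset.univ ∅ = u := by
    funext i
    simp [IIE.vv]
  rwa [e] at this

end Pool.Agent.Work.MP_e4a69c_an.ML
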