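import Pool.Agent.Work.MP_e4a69c_an.ML.Stmts

/-! Theorem ML (MP_e4a69c_an), item IS: induction over the slots. -/

set_option autoImplicit false

namespace Pool.Agent.Work.MP_e4a69c_an.ML

open scoped Manifold ContDiff Topology
open Pool.Agent.Work.MP_e4a69c_an.SU

/-- IS: induction over the slots. -/
theorem pr_IS (hBA : StBA) (hPH : StPH) (hDS : StDS) : StIS := by
  intro 𝔤 _ _ G _ _ _ _ ι _ _ hne0 M _ _ _ B _ _ _ ρ ρV f p hV hf hp hs x0 hx0 b S
  have hB := hBA 𝔤 G ι M B ρ (GMod.triv ℂ) (GMod.triv B) ρV f p hV hf hp (fun g z => rfl) hs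
  have hd := ((hDS ι M B f).2.2 p hp).1
  induction S using Finset.induction_on with
  | empty =>
    obtain ⟨W, i1, i2, i3, σ, S, d⟩ := hB
    refine ⟨W, i1, i2, i3, σ, S, fun y hy τ hτ => d y hy τ ⟨?_, hτ.2⟩⟩
    rcases hτ.1 with h | h
    · exact h
    · obtain ⟨j⟩ := hne0
      refine ⟨j, fun hc => h ?_⟩
      have h4 : sl f y.1 j (y.1 j) = f y.1 := by
        rw [sl_apply, Function.update_eq_self]
      have h5 : (fun i => if i ∈ (∅ : Finset ι) then y.1 i + (fderiv ℂ p y.2 b) • x0 i
          else y.1 i) = y.1 := by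
        funext i
        rw [if_neg (Finset.notMem_empty i)]
      rw [h5, ← h4, hc]
      rfl
  | insert j S0 hj ih =>
    obtain ⟨φ, ψ, hφ, hψ, h1, h2, h3, h4, h5⟩ := hPH 𝔤 G ι M B ρ ρV f p hV hf hp j (x0 j)
      (fun g => hx0 g j) b
    have hJ := pr_CJ 𝔤 G _ ρV (fs f p) φ ψ hφ hψ h1 h2 h3 h4 _ ih
    obtain ⟨W, i1, i2, i3, σ, S, d⟩ := pr_CC 𝔤 G _ ρV (fs f p) _ _ hB hJ
    refine ⟨W, i1, i2, i3, σ, S, fun y hy τ hτ => d y hy τ (Submodule.subset_span ?_)⟩
    by_cases hne : ∃ k, sl f y.1 k ≠ 0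
    · exact Or.inl ⟨hne, hτ.2⟩
    · right
      have hh : f (fun i => if i ∈ insert j S0 then y.1 i + (fderiv ℂ p y.2 b) • x0 i
          else y.1 i) ≠ 0 := by
        rcases hτ.1 with h | h
        · exact absurd h hne
        · exact h
      push Not at hne
      have hs0 : sl f y.1 j (x0 j) = 0 := by
        rw [hne j]
        rfl
      have hφy := h5 y hs0
      have hz : (φ y).2 = y.2 := by rw [hφy]
      refine ⟨Or.inr ?_, ?_⟩
      · have h6 : (fun i => if i ∈ S0 then (φ y).1 i + (fderiv ℂ p (φ y).2 b) • x0 i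
            else (φ y).1 i) = (fun i => if i ∈ insert j S0 then
              y.1 i + (fderiv ℂ p y.2 b) • x0 i else y.1 i) := by
          funext i
          rw [hz]
          have h7 : (φ y).1 = Function.update y.1 j (y.1 j + (fderiv ℂ p y.2 b) • x0 j) := by
            rw [hφy]
          rw [h7]
          by_cases hi : i = j
          · subst hi
            rw [if_neg hj, if_pos (Finset.mem_insert_self _ _), Function.update_self]
          · rw [Function.update_of_ne hi]
            by_cases hi2 : i ∈ S0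
            · rw [if_pos hi2, if_pos (Finset.mem_insert_of_mem hi2)]
            · rw [if_neg hi2, if_neg]
              rw [Finset.mem_insert]
              push Not
              exact ⟨hi, hi2⟩
        rw [h6]
        exact hh
      · have h6 : fderiv ℂ (fs f p ∘ φ) y = (fderiv ℂ (fs f p) (φ y)).comp (fderiv ℂ φ y) :=
          fderiv_comp y (hd _) (hφ y)
        have h7 : fs f p ∘ φ = fs f p := funext h3
        rw [h7] at h6
        have h9 : fderiv ℂ (fs f p) y τ = fderiv ℂ (fs f p) (φ y) (fderiv ℂ φ y τ) := by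
          rw [h6]
          rfl
        rw [← h9]
        exact hτ.2

end Pool.Agent.Work.MP_e4a69c_an.ML
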