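import Pool.Agent.Work.MP_e4a69c_an.ML.Stmts

set_option autoImplicit false

namespace Pool.Agent.Work.MP_e4a69c_an.ML

open scoped Manifold ContDiff Topology
open Pool.Agent.Work.MP_e4a69c_an.SU

section

variable {ι : Type} [DecidableEq ι] {M : ι → Type} [∀ i, NormedAddCommGroup (M i)]
  [∀ i, NormedSpace ℂ (M i)] {B : Type} [NormedAddCommGroup B] [NormedSpace ℂ B]

/-- the embedding of the slot `j` -/
noncomputable def IMI.em (M : ι → Type) [∀ i, NormedAddCommGroup (M i)]
    [∀ i, NormedSpace ℂ (M i)] (j : ι) : M j →L[ℂ] (∀ i, M i) := ContinuousLinearMap.single ℂ M j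

theorem IMI.em_same (j : ι) (m : M j) : IMI.em M j m j = m := by
  simp [IMI.em]

theorem IMI.em_ne (j k : ι) (h : k ≠ j) (m : M j) : IMI.em M j m k = 0 := by
  simp [IMI.em, Pi.single_eq_of_ne h]

theorem IMI.add_em (j : ι) (x : ∀ i, M i) (m : M j) :
    x + IMI.em M j m = Function.update x j (x j + m) := by
  funext k
  by_cases h : k = j
  · subst h
    rw [Pi.add_apply, IMI.em_same, Function.update_self]
  · rw [Pi.add_apply, IMI.em_ne j k h, Function.update_of_ne h, add_zero]

theorem IMI.f_add (f : ContinuousMultilinearMap ℂ M ℂ) (j : ι) (x : ∀ i, M i) (m : M j) :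
    f (x + IMI.em M j m) = f x + sl f x j m := by
  rw [IMI.add_em, ContinuousMultilinearMap.map_update_add, Function.update_eq_self]
  rfl

end

theorem IMI.hol {E N B : Type} [NormedAddCommGroup E] [NormedSpace ℂ E]
    [NormedAddCommGroup N] [NormedSpace ℂ N] [NormedAddCommGroup B] [NormedSpace ℂ B] {p : B → ℂ}
    (c : E → N) (hc : Differentiable ℂ c) (J : (N →L[ℂ] ℂ) →L[ℂ] E)
    (hq : Differentiable ℂ (fun x : B × B => qq p x.1 x.2)) :
    Differentiable ℂ (fun x : (E × B) × (N →L[ℂ] B) =>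
      (x.1.1 + J ((qq p x.1.2 (x.2 (c x.1.1))).comp x.2), x.1.2 + x.2 (c x.1.1))) := by
  have h0 : Differentiable ℂ (fun x : (E × B) × (N →L[ℂ] B) => x.1.1) := differentiable_fst.fst
  have h1 : Differentiable ℂ (fun x : (E × B) × (N →L[ℂ] B) => c x.1.1) := hc.comp h0
  have ha : Differentiable ℂ (fun x : (E × B) × (N →L[ℂ] B) => x.2 (c x.1.1)) :=
    differentiable_snd.clm_apply h1
  have hb : Differentiable ℂ (fun x : (E × B) × (N →L[ℂ] B) => qq p x.1.2 (x.2 (c x.1.1))) :=
    hq.comp (differentiable_fst.snd.prodMk ha)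
  have hc : Differentiable ℂ (fun x : (E × B) × (N →L[ℂ] B) =>
      (qq p x.1.2 (x.2 (c x.1.1))).comp x.2) := hb.clm_comp differentiable_snd
  have hd : Differentiable ℂ (fun x : (E × B) × (N →L[ℂ] B) =>
      J ((qq p x.1.2 (x.2 (c x.1.1))).comp x.2)) := J.differentiable.comp hc
  exact (h0.add hd).prodMk (differentiable_fst.snd.add ha)

theorem IMI.der {E N B : Type} [NormedAddCommGroup E] [NormedSpace ℂ E]
    [NormedAddCommGroup N] [NormedSpace ℂ N] [NormedAddCommGroup B] [NormedSpace ℂ B] {p : B → ℂ}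
    (J : (N →L[ℂ] ℂ) →L[ℂ] E)
    (hq : Differentiable ℂ (fun x : B × B => qq p x.1 x.2))
    (x : E) (z : B) (n : N) (h0 : qq p z 0 = fderiv ℂ p z) (t : N →L[ℂ] B) :
    fderiv ℂ (fun w : N →L[ℂ] B => (x + J ((qq p z (w n)).comp w), z + w n)) 0 t
      = (J ((fderiv ℂ p z).comp t), t n) := by
  obtain ⟨L, E', hL, hE, hLd, hEd⟩ := ISM.der (N := N) hq z n h0
  have hJc : HasFDerivAt (fun w : N →L[ℂ] B => J ((qq p z (w n)).comp w)) (J.comp L) 0 :=
    HasFDerivAt.comp (0 : N →L[ℂ] B) (g := J) (f := fun w : N →L[ℂ] B => (qq p z (w n)).comp w)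
      J.hasFDerivAt hLd
  have hS := (hJc.const_add x).prodMk (hEd.const_add z)
  rw [hS.fderiv]
  refine Prod.ext ?_ (hE t)
  show J (L t) = _
  rw [hL]

theorem pr_MI (hDS : StDS) (hEQ : StEQ) : StMI := by
  intro 𝔤 _ _ G _ _ _ _ ι _ _ M _ _ _ B _ _ _ ρ ρL ρB ρV f p hV hf hp heq j
  have hq := aQD B p hp
  have hs := (hDS ι M B f).2.1 j
  obtain ⟨J, hJ⟩ := pr_BD (M j)
  have hsep : ∀ u v : M j, (∀ ζ : M j →L[ℂ] ℂ, ζ u = ζ v) → u = v := by
    intro u v h
    by_contra hne
    obtain ⟨l, hl⟩ := SeparatingDual.exists_ne_zero (R := ℂ) (sub_ne_zero.mpr hne)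
    exact hl (by rw [map_sub, h l, sub_self])
  let S : Spray ρV (fs f p) (((ρ j).hom ρL).hom ρB) :=
    { s := fun x => (x.1.1 + IMI.em M j (J ((qq p x.1.2 (x.2 (sl f x.1.1 j))).comp x.2)),
        x.1.2 + x.2 (sl f x.1.1 j))
      hol := IMI.hol (N := M j →L[ℂ] ℂ) (fun x => sl f x j) hs ((IMI.em M j).comp J) hq
      zero := by
        rintro ⟨x, z⟩ _
        simp
      maps := by
        rintro ⟨x, z⟩ t hy
        have h1 := (aQH B p hp).1 z (t (sl f x j))
        have h2 : f x - p z = 0 := hy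
        show f (x + IMI.em M j (J ((qq p z (t (sl f x j))).comp t))) - p (z + t (sl f x j)) = 0
        rw [IMI.f_add, hJ, ContinuousLinearMap.comp_apply, h1]
        linear_combination h2
      equi := by
        rintro g ⟨x, z⟩ t
        have hc : sl f (fun i => (ρ i).act g (x i)) j = ((ρ j).hom ρL).act g (sl f x j) :=
          hEQ 𝔤 G ι M ρ ρL f hf g x j
        have h1 : (((ρ j).hom ρL).hom ρB).act g t (((ρ j).hom ρL).act g (sl f x j))
            = ρB.act g (t (sl f x j)) := by
          rw [GMod.hom_act, GMod.act_inv_act]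
        rw [hV]
        show ((fun i => (ρ i).act g (x i)) + IMI.em M j (J ((qq p (ρB.act g z)
              ((((ρ j).hom ρL).hom ρB).act g t (sl f (fun i => (ρ i).act g (x i)) j))).comp
                ((((ρ j).hom ρL).hom ρB).act g t))),
              ρB.act g z + (((ρ j).hom ρL).hom ρB).act g t (sl f (fun i => (ρ i).act g (x i)) j))
            = _
        rw [hV, hc, h1]
        refine Prod.ext ?_ ?_
        · funext k
          show (ρ k).act g (x k) + IMI.em M j (J ((qq p (ρB.act g z)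
              (ρB.act g (t (sl f x j)))).comp ((((ρ j).hom ρL).hom ρB).act g t))) k
            = (ρ k).act g (x k + IMI.em M j (J ((qq p z (t (sl f x j))).comp t)) k)
          rw [map_add]
          congr 1
          by_cases hk : k = j
          · subst hk
            rw [IMI.em_same, IMI.em_same]
            apply hsep
            intro ζ
            have h2 : ζ ((ρ k).act g (J ((qq p z (t (sl f x k))).comp t))) =
                ρL.act g ((((ρ k).hom ρL).act g⁻¹ ζ) (J ((qq p z (t (sl f x k))).comp t))) := by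
              rw [GMod.hom_act, inv_inv, GMod.act_act_inv]
            rw [h2, hJ, hJ, ContinuousLinearMap.comp_apply, GMod.hom_act,
              aQE B p (ρB.act g) (ρL.act g) hp (heq g)]
            rfl
          · rw [IMI.em_ne j k hk, IMI.em_ne j k hk, map_zero]
        · show ρB.act g z + ρB.act g (t (sl f x j)) = ρB.act g (z + t (sl f x j))
          rw [map_add] }
  refine ⟨(M j →L[ℂ] ℂ) →L[ℂ] B, inferInstance, inferInstance, inferInstance,
    ((ρ j).hom ρL).hom ρB, S, ?_⟩
  rintro ⟨x, z⟩ hy ⟨m, b⟩ ⟨t, h0, hm, hb⟩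
  refine ⟨t, ?_⟩
  have h5 := IMI.der (N := M j →L[ℂ] ℂ) ((IMI.em M j).comp J) hq x z (sl f x j)
    ((aQH B p hp).2.1 z) t
  refine Eq.trans h5 ?_
  refine Prod.ext ?_ hb.symm
  funext k
  by_cases hk : k = j
  · subst hk
    show IMI.em M k (J ((fderiv ℂ p z).comp t)) k = m k
    rw [IMI.em_same]
    apply hsep
    intro ζ
    rw [hJ]
    exact (hm ζ).symm
  · show IMI.em M j (J ((fderiv ℂ p z).comp t)) k = m k
    rw [IMI.em_ne j k hk]
    exact (h0 k hk).symm

end Pool.Agent.Work.MP_e4a69c_an.ML
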