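import Pool.Agent.Work.MP_e4a69c_an.ML.Stmts

/-! Item MS of theorem ML: the scalings. -/

set_option autoImplicit false

namespace Pool.Agent.Work.MP_e4a69c_an.ML

open scoped Manifold ContDiff Topology
open Pool.Agent.Work.MP_e4a69c_an.SU

namespace IMS

variable {ι : Type} [DecidableEq ι]

/-- the factors -/
noncomputable def c (j k i : ι) (a : ℂ) : ℂ :=
  (if i = j then Complex.exp a else 1) * (if i = k then Complex.exp (-a) else 1)

theorem c_zero (j k i : ι) : c j k i 0 = 1 := by
  unfold c
  simp

theorem c_prod [Fintype ι] (j k : ι) (a : ℂ) : ∏ i, c j k i a = 1 := by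
  unfold c
  rw [Finset.prod_mul_distrib, Finset.prod_ite_eq', Finset.prod_ite_eq', if_pos (Finset.mem_univ _),
    if_pos (Finset.mem_univ _), ← Complex.exp_add, add_neg_cancel, Complex.exp_zero]

theorem c_diff (j k i : ι) : Differentiable ℂ (c j k i) := by
  unfold c
  apply Differentiable.mul
  · split_ifs
    · exact Complex.differentiable_exp
    · exact differentiable_const _
  · split_ifs
    · exact Complex.differentiable_exp.comp differentiable_neg
    · exact differentiable_const _

theorem c_der (j k i : ι) :
    HasDerivAt (c j k i) ((if i = j then 1 else 0) - (if i = k then 1 else 0)) 0 := by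
  have h1 : HasDerivAt (fun a : ℂ => if i = j then Complex.exp a else 1)
      (if i = j then 1 else 0) 0 := by
    split_ifs
    · have := Complex.hasDerivAt_exp 0
      rwa [Complex.exp_zero] at this
    · exact hasDerivAt_const _ _
  have h2 : HasDerivAt (fun a : ℂ => if i = k then Complex.exp (-a) else 1)
      (-(if i = k then 1 else 0)) 0 := by
    split_ifs
    · have h3 : HasDerivAt (fun a : ℂ => Complex.exp (-a)) (Complex.exp (-0) * -1) 0 :=
        (Complex.hasDerivAt_exp (-0)).comp 0 (hasDerivAt_neg (0 : ℂ))
      simpa using h3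
    · simpa using hasDerivAt_const (0 : ℂ) (1 : ℂ)
  have h4 := h1.mul h2
  have h5 : (if i = j then (1 : ℂ) else 0) - (if i = k then 1 else 0) =
      (if i = j then 1 else 0) * (if i = k then Complex.exp (-0) else 1) +
        (if i = j then Complex.exp 0 else 1) * -(if i = k then 1 else 0) := by
    rw [neg_zero, Complex.exp_zero]
    simp
    ring
  rw [h5]
  exact h4

end IMS

open IMS in
theorem pr_MS : StMS := by
  intro 𝔤 _ _ G _ _ _ _ ι _ _ M _ _ _ B _ _ _ ρ ρB ρV f p hV j k
  let S : Spray ρV (fs f p) (GMod.triv (𝔤 := 𝔤) (G := G) ℂ) :=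
    { s := fun x => (fun i => c j k i x.2 • x.1.1 i, x.1.2)
      hol := by
        refine Differentiable.prodMk (differentiable_pi.2 fun i => ?_) differentiable_fst.snd
        exact ((c_diff j k i).comp differentiable_snd).smul
          ((differentiable_pi.1 differentiable_fst.fst) i)
      zero := by
        rintro ⟨x, z⟩ _
        refine Prod.ext (funext fun i => ?_) rfl
        show c j k i 0 • x i = x i
        rw [c_zero, one_smul]
      maps := by
        rintro ⟨x, z⟩ a hy
        show f (fun i => c j k i a • x i) - p z = 0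
        rw [f.map_smul_univ, c_prod, one_smul]
        exact hy
      equi := by
        rintro g ⟨x, z⟩ a
        rw [hV, hV]
        refine Prod.ext (funext fun i => ?_) rfl
        show c j k i a • (ρ i).act g (x i) = (ρ i).act g (c j k i a • x i)
        rw [map_smul] }
  refine ⟨ℂ, inferInstance, inferInstance, inferInstance, GMod.triv ℂ, S, ?_⟩
  rintro ⟨x, z⟩ _ τ ⟨a, hjk, h1, h2, h3, h4⟩
  refine ⟨a, ?_⟩
  have hd : HasDerivAt (fun a : ℂ => ((fun i => c j k i a • x i, z) : (∀ i, M i) × B))
      (fun i => ((if i = j then (1 : ℂ) else 0) - (if i = k then 1 else 0)) • x i, 0) 0 := by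
    refine HasDerivAt.prodMk (hasDerivAt_pi.2 fun i => ?_) (hasDerivAt_const _ _)
    exact (c_der j k i).smul_const (x i)
  have hf : fderiv ℂ (fun a : ℂ => ((fun i => c j k i a • x i, z) : (∀ i, M i) × B)) 0 a =
      a • ((fun i => ((if i = j then (1 : ℂ) else 0) - (if i = k then 1 else 0)) • x i, 0) :
        (∀ i, M i) × B) := by
    rw [hd.hasFDerivAt.fderiv]
    rfl
  show fderiv ℂ (fun a : ℂ => ((fun i => c j k i a • x i, z) : (∀ i, M i) × B)) 0 a = τ
  rw [hf]
  refine Prod.ext (funext fun i => ?_) ?_
  · show a • (((if i = j then (1 : ℂ) else 0) - (if i = k then 1 else 0)) • x i) = τ.1 i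
    by_cases hi : i = j
    · subst hi
      rw [if_pos rfl, if_neg hjk, sub_zero, one_smul, h1]
    · by_cases hi' : i = k
      · subst hi'
        rw [if_neg hi, if_pos rfl, zero_sub, neg_smul, one_smul, smul_neg, h2]
      · rw [if_neg hi, if_neg hi', sub_zero, zero_smul, smul_zero, h3 i hi hi']
  · show a • (0 : B) = τ.2
    rw [smul_zero, h4]

end Pool.Agent.Work.MP_e4a69c_an.ML
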