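import Pool.Agent.Work.MP_e4a69c_an.ML.Stmts

/-! Item NC of theorem ML (MP_e4a69c_an): from the N-fixed locus of the suspension to `{p = 0}`. -/

set_option autoImplicit false

namespace Pool.Agent.Work.MP_e4a69c_an.ML

open scoped Manifold ContDiff Topology
open Pool.Agent.Work.MP_e4a69c_an.SU

theorem pr_NC (hDS : StDS) : StNC := by
  intro 𝔤 _ _ G _ _ _ _ N ι _ _ _ M _ _ _ B _ _ _ ρ ρB ρV f p hact hp hN hf hG
  obtain ⟨W, i1, i2, i3, σ, s, hs1, hs2, hs3, hs4, hs5⟩ := hG
  have hmem : ∀ z, p z = 0 → ((0 : ∀ i, M i), z) ∈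
      ({y | fs f p y = 0} ∩ {y | ∀ n ∈ N, ρV.act n y = y} : Set ((∀ i, M i) × B)) := by
    intro z hz
    refine ⟨?_, ?_⟩
    · show f 0 - p z = 0
      rw [f.map_zero, hz, sub_zero]
    · intro n hn
      rw [hact]
      refine Prod.ext ?_ ?_
      · funext i
        exact map_zero _
      · exact hN n hn z
  have hdiff : Differentiable ℂ (fun q : B × W => s (((0 : ∀ i, M i), q.1), q.2)) := by
    refine hs1.comp ?_
    exact ((differentiable_const _).prodMk differentiable_fst).prodMk differentiable_snd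
  refine ⟨W, i1, i2, i3, σ, ⟨fun q => (s ((0, q.1), q.2)).2, ?_, ?_, ?_, ?_⟩, ?_⟩
  · exact hdiff.snd
  · intro z hz
    show (s ((0, z), 0)).2 = z
    rw [hs2 _ (hmem z hz)]
  · intro z w hz
    show p (s ((0, z), w)).2 = 0
    obtain ⟨h1, h2⟩ := hs3 _ (hmem z hz) w
    have h3 : f (s ((0, z), w)).1 = 0 := by
      apply hf
      intro n hn i
      have h4 := h2 n hn
      rw [hact] at h4
      exact congrFun (congrArg Prod.fst h4) i
    have h5 : f (s ((0, z), w)).1 - p (s ((0, z), w)).2 = 0 := h1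
    rw [h3, zero_sub, neg_eq_zero] at h5
    exact h5
  · intro g z w
    show (s ((0, ρB.act g z), σ.act g w)).2 = ρB.act g (s ((0, z), w)).2
    have h1 := hs4 g (0, z) w
    have h2 : ρV.act g ((0 : ∀ i, M i), z) = (0, ρB.act g z) := by
      rw [hact]
      refine Prod.ext ?_ rfl
      funext i
      exact map_zero _
    rw [h2] at h1
    rw [h1, hact]
  · intro z hz b hb
    have h1 : ((0 : ∀ i, M i), b) ∈
        ({τ | fderiv ℂ (fs f p) ((0 : ∀ i, M i), z) τ = 0} ∩
          {τ | ∀ n ∈ N, ρV.act n τ = τ} : Set ((∀ i, M i) × B)) := by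
      refine ⟨?_, ?_⟩
      · show fderiv ℂ (fs f p) ((0 : ∀ i, M i), z) ((0 : ∀ i, M i), b) = 0
        rw [((hDS ι M B f).2.2 p hp).2]
        rw [hb, sub_zero]
        apply Finset.sum_eq_zero
        intro j _
        exact map_zero _
      · intro n hn
        rw [hact]
        refine Prod.ext ?_ ?_
        · funext i
          exact map_zero _
        · exact hN n hn b
    obtain ⟨w, hw⟩ := hs5 _ (hmem z hz) _ h1
    refine ⟨w, ?_⟩
    show fderiv ℂ (fun w : W => (s (((0 : ∀ i, M i), z), w)).2) 0 w = b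
    have h2 : DifferentiableAt ℂ (fun w : W => s (((0 : ∀ i, M i), z), w)) 0 := by
      have h3 : Differentiable ℂ (fun w : W => s (((0 : ∀ i, M i), z), w)) :=
        hs1.comp ((differentiable_const _).prodMk differentiable_id)
      exact h3 0
    rw [(h2.hasFDerivAt.snd).fderiv]
    show (fderiv ℂ (fun w : W => s (((0 : ∀ i, M i), z), w)) 0 w).2 = b
    rw [hw]

end Pool.Agent.Work.MP_e4a69c_an.ML
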