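import Pool.Agent.Work.MP_e4a69c_an.ML.Stmts

/-! Theorem ML (MP_e4a69c_an), item OF: a fixed vector with `f ≠ 0` makes the manifold
G-elliptic. -/

set_option autoImplicit false

namespace Pool.Agent.Work.MP_e4a69c_an.ML

open scoped Manifold ContDiff Topology
open Pool.Agent.Work.MP_e4a69c_an.SU

namespace IOF

/-- A nonzero functional does not vanish at some basis vector. -/
theorem exists_basis {B : Type} [NormedAddCommGroup B] [NormedSpace ℂ B] {n : ℕ}
    (b : Module.Basis (Fin n) ℂ B) (α : B →L[ℂ] ℂ) (h : α ≠ 0) : ∃ j, α (b j) ≠ 0 := by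
  by_contra hcon
  push Not at hcon
  apply h
  have h1 : (α : B →ₗ[ℂ] ℂ) = 0 := b.ext fun j => by
    rw [LinearMap.zero_apply]
    exact hcon j
  ext z
  have := LinearMap.congr_fun h1 z
  simpa using this

end IOF

/-- OF: if `f ≠ 0` at some tuple of fixed vectors then the manifold is G-elliptic. -/
theorem pr_OF (hIS : StIS) (hIE : StIE) : StOF := by
  intro 𝔤 _ _ G _ _ _ _ ι _ _ _ M _ _ _ B _ _ _ ρ ρV f p hρ hf hp hsm x0 hx0 hfx0
  set b := Module.finBasis ℂ B with hb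
  have hI : ∀ (c : B) (S : Finset ι), Covers ρV (fs f p) (fun y => {τ | ((∃ j, sl f y.1 j ≠ 0) ∨
      f (fun i => if i ∈ S then y.1 i + (fderiv ℂ p y.2 c) • x0 i else y.1 i) ≠ 0) ∧
      fderiv ℂ (fs f p) y τ = 0}) := fun c S =>
    hIS 𝔤 G ι M B ρ ρV f p hρ hf hp hsm x0 hx0 c S
  set e := (Fintype.equivFin (Fin (Module.finrank ℂ B) × Finset ι)).symm with he
  have hF := aCF 𝔤 G _ ρV (fs f p) _ _ (fun k => hI (b (e k).1) (e k).2)
  obtain ⟨W, i1, i2, i3, σ, S, hS⟩ := pr_CC 𝔤 G _ ρV (fs f p) _ _ (hI 0 ∅) hF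
  refine ⟨W, i1, i2, i3, σ, S, fun y hy τ hτ => hS y hy τ ?_⟩
  apply Submodule.subset_span
  by_cases hne : ∃ j, sl f y.1 j ≠ 0
  · exact Or.inl ⟨Or.inl hne, hτ⟩
  · right
    push Not at hne
    have hfx : f y.1 = 0 := by
      obtain ⟨j⟩ := (inferInstance : Nonempty ι)
      have h1 : sl f y.1 j (y.1 j) = 0 := by rw [hne j]; rfl
      rw [sl_apply, Function.update_eq_self] at h1
      exact h1
    have hpz : p y.2 = 0 := by
      have h6 : f y.1 - p y.2 = 0 := hy
      rw [hfx] at h6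
      simpa using h6
    obtain ⟨j, hj⟩ := IOF.exists_basis b (fderiv ℂ p y.2) (hsm _ hpz)
    obtain ⟨S', hS'⟩ : ∃ S' : Finset ι,
        f (fun i => if i ∈ S' then y.1 i + (fderiv ℂ p y.2 (b j)) • x0 i else y.1 i) ≠ 0 := by
      by_contra hcon
      push Not at hcon
      have h1 := hIE ι M f y.1 (fun i => (fderiv ℂ p y.2 (b j)) • x0 i) hcon
      rw [f.map_smul_univ (fun _ => fderiv ℂ p y.2 (b j)) x0] at h1
      rw [smul_eq_mul, mul_eq_zero] at h1
      rcases h1 with h1 | h1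
      · rw [Finset.prod_const] at h1
        exact hj ((pow_eq_zero_iff Fintype.card_ne_zero).mp h1)
      · exact hfx0 h1
    rw [Set.mem_iUnion]
    refine ⟨e.symm (j, S'), ?_⟩
    rw [Equiv.apply_symm_apply]
    exact ⟨Or.inr hS', hτ⟩

end Pool.Agent.Work.MP_e4a69c_an.ML
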