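import Pool.Agent.Work.MP_e4a69c_an.ML.Stmts

/-! Block ML, item PH (helper39): the automorphism defined by a fixed vector of one slot. -/

set_option autoImplicit false

namespace Pool.Agent.Work.MP_e4a69c_an.ML

open scoped Manifold ContDiff Topology
open Pool.Agent.Work.MP_e4a69c_an.SU

namespace IPH

variable {ι : Type} [Fintype ι] [DecidableEq ι] {M : ι → Type} [∀ i, NormedAddCommGroup (M i)]
  [∀ i, NormedSpace ℂ (M i)] {B : Type} [NormedAddCommGroup B] [NormedSpace ℂ B]

/-- the automorphism -/
noncomputable def ph (f : ContinuousMultilinearMap ℂ M ℂ) (p : B → ℂ) (j : ι) (x0 : M j) (b : B)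
    (y : (∀ i, M i) × B) : (∀ i, M i) × B :=
  (Function.update y.1 j (y.1 j + (qq p y.2 (sl f y.1 j x0 • b) b) • x0),
    y.2 + sl f y.1 j x0 • b)

theorem diff_update {E : Type} [NormedAddCommGroup E] [NormedSpace ℂ E] (j : ι)
    (a : E → ∀ i, M i) (c : E → M j) (ha : Differentiable ℂ a) (hc : Differentiable ℂ c) :
    Differentiable ℂ (fun y => Function.update (a y) j (c y)) := by
  rw [differentiable_pi]
  intro i
  by_cases h : i = j
  · subst h
    simpa using hc
  · have h2 := (differentiable_pi.1 ha) i
    have h3 : (fun y => Function.update (a y) j (c y) i) = fun y => a y i := by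
      funext y
      exact Function.update_of_ne h _ _
    rw [h3]
    exact h2

theorem diff [∀ i, FiniteDimensional ℂ (M i)] [FiniteDimensional ℂ B] (hDS : StDS)
    (f : ContinuousMultilinearMap ℂ M ℂ) (p : B → ℂ)
    (hp : Differentiable ℂ p) (j : ι) (x0 : M j) (b : B) : Differentiable ℂ (ph f p j x0 b) := by
  obtain ⟨-, d2, -⟩ := hDS ι M B f
  have h1 : Differentiable ℂ (fun y : (∀ i, M i) × B => sl f y.1 j x0) :=
    ((d2 j).comp differentiable_fst).clm_apply (differentiable_const x0)
  have h4 : Differentiable ℂ (fun y : (∀ i, M i) × B => sl f y.1 j x0 • b) := h1.smul_const b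
  have h5 : Differentiable ℂ (fun y : (∀ i, M i) × B => (y.2, sl f y.1 j x0 • b)) :=
    differentiable_snd.prodMk h4
  have h6 : Differentiable ℂ (fun y : (∀ i, M i) × B => qq p y.2 (sl f y.1 j x0 • b)) :=
    (aQD B p hp).comp h5
  have h7 : Differentiable ℂ (fun y : (∀ i, M i) × B => qq p y.2 (sl f y.1 j x0 • b) b) :=
    h6.clm_apply (differentiable_const b)
  have h8 : Differentiable ℂ (fun y : (∀ i, M i) × B => y.1 j) :=
    (differentiable_pi.1 (differentiable_fst (𝕜 := ℂ) (E := ∀ i, M i) (F := B))) j
  exact (diff_update j (fun y : (∀ i, M i) × B => y.1) _ differentiable_fst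
    (h8.add (h7.smul_const x0))).prodMk (differentiable_snd.add h4)

theorem inv [∀ i, FiniteDimensional ℂ (M i)] [FiniteDimensional ℂ B] (hDS : StDS)
    (f : ContinuousMultilinearMap ℂ M ℂ) (p : B → ℂ) (hp : Differentiable ℂ p) (j : ι)
    (x0 : M j) (b : B) (y : (∀ i, M i) × B) : ph f p j x0 (-b) (ph f p j x0 b y) = y := by
  obtain ⟨x, z⟩ := y
  obtain ⟨d1, -, -⟩ := hDS ι M B f
  obtain ⟨_, _, h3⟩ := aQH B p hp
  have h := h3 z (sl f x j x0 • b)
  have hs : sl f (Function.update x j (x j + (qq p z (sl f x j x0 • b) b) • x0)) j = sl f x j :=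
    d1 x j _
  show (Function.update (Function.update x j (x j + (qq p z (sl f x j x0 • b) b) • x0)) j
      ((Function.update x j (x j + (qq p z (sl f x j x0 • b) b) • x0)) j +
        (qq p (z + sl f x j x0 • b)
          (sl f (Function.update x j (x j + (qq p z (sl f x j x0 • b) b) • x0)) j x0 • (-b))
          (-b)) • x0),
      (z + sl f x j x0 • b) +
        sl f (Function.update x j (x j + (qq p z (sl f x j x0 • b) b) • x0)) j x0 • (-b)) = (x, z)
  rw [hs, Function.update_self, Function.update_idem]
  simp only [smul_neg]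
  rw [h, map_neg, neg_smul, add_neg_cancel_right, add_neg_cancel_right, Function.update_eq_self]

end IPH

open IPH in
theorem pr_PH (hDS : StDS) : StPH := by
  intro 𝔤 _ _ G _ _ _ _ ι _ _ M _ _ _ B _ _ _ ρ ρV f p hV hf hp j x0 hx0 b
  obtain ⟨h1, h2, h3⟩ := aQH B p hp
  refine ⟨ph f p j x0 b, ph f p j x0 (-b), diff hDS f p hp j x0 b, diff hDS f p hp j x0 (-b),
    inv hDS f p hp j x0 b, ?_, ?_, ?_, ?_⟩
  · intro y
    have h := inv hDS f p hp j x0 (-b) y
    rwa [neg_neg] at h
  · rintro ⟨x, z⟩
    have h := h1 z (sl f x j x0 • b)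
    rw [map_smul, smul_eq_mul] at h
    show f (Function.update x j (x j + (qq p z (sl f x j x0 • b) b) • x0)) -
      p (z + sl f x j x0 • b) = f x - p z
    rw [f.map_update_add, f.map_update_smul, Function.update_eq_self, ← sl_apply f x j x0,
      smul_eq_mul]
    linear_combination h
  · rintro g ⟨x, z⟩
    have hu : ∀ m : M j, Function.update (fun i => (ρ i).act g (x i)) j ((ρ j).act g m) =
        fun i => (ρ i).act g (Function.update x j m i) := by
      intro m
      funext i
      by_cases hi : i = j
      · subst hi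
        simp
      · rw [Function.update_of_ne hi, Function.update_of_ne hi]
    have hx : sl f (fun i => (ρ i).act g (x i)) j x0 = sl f x j x0 := by
      have h5 := hu x0
      rw [hx0 g] at h5
      rw [sl_apply, sl_apply, h5, hf]
    rw [hV, hV]
    show (Function.update (fun i => (ρ i).act g (x i)) j
        ((ρ j).act g (x j) +
          (qq p z (sl f (fun i => (ρ i).act g (x i)) j x0 • b) b) • x0),
        z + sl f (fun i => (ρ i).act g (x i)) j x0 • b) =
      ((fun i => (ρ i).act g
          (Function.update x j (x j + (qq p z (sl f x j x0 • b) b) • x0) i)),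
        z + sl f x j x0 • b)
    rw [hx, ← hu, map_add, map_smul, hx0]
  · rintro ⟨x, z⟩ hy
    have hy' : sl f x j x0 = 0 := hy
    show (Function.update x j (x j + (qq p z (sl f x j x0 • b) b) • x0), z + sl f x j x0 • b) =
      (Function.update x j (x j + (fderiv ℂ p z b) • x0), z)
    rw [hy', zero_smul, add_zero, h2]

end Pool.Agent.Work.MP_e4a69c_an.ML
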