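import Pool.Agent.Work.MP_e4a69c_an.ML.Main
import Pool.Agent.Work.MP_e4a69c_an.ML.Core
import Pool.Agent.Work.MP_e4a69c_an.ML.I_DS
import Pool.Agent.Work.MP_e4a69c_an.ML.I_EQ
import Pool.Agent.Work.MP_e4a69c_an.ML.I_MI
import Pool.Agent.Work.MP_e4a69c_an.ML.I_MK
import Pool.Agent.Work.MP_e4a69c_an.ML.I_MS
import Pool.Agent.Work.MP_e4a69c_an.ML.I_LA
import Pool.Agent.Work.MP_e4a69c_an.ML.I_BA
import Pool.Agent.Work.MP_e4a69c_an.ML.I_MZ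
import Pool.Agent.Work.MP_e4a69c_an.ML.I_AA
import Pool.Agent.Work.MP_e4a69c_an.ML.I_PH
import Pool.Agent.Work.MP_e4a69c_an.ML.I_IE
import Pool.Agent.Work.MP_e4a69c_an.ML.I_IS
import Pool.Agent.Work.MP_e4a69c_an.ML.I_OF
import Pool.Agent.Work.MP_e4a69c_an.ML.I_NC

/-! Assembly of theorem ML. -/

set_option autoImplicit false

namespace Pool.Agent.Work.MP_e4a69c_an.ML

open scoped Manifold ContDiff Topology
open Pool.Agent.Work.MP_e4a69c_an.SU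

theorem mMI : StMI := pr_MI pr_DS pr_EQ
theorem mMK : StMK := pr_MK pr_DS pr_EQ
theorem mBA : StBA := pr_BA mMI mMK pr_MS pr_LA pr_DS
theorem mAA : StAA := pr_AA mBA mMI pr_MZ pr_DS
theorem mPH : StPH := pr_PH pr_DS
theorem mIS : StIS := pr_IS mBA mPH pr_DS
theorem mOF : StOF := pr_OF mIS pr_IE
theorem mNC : StNC := pr_NC pr_DS

theorem main :
    ∀ (𝔤 : Type) [NormedAddCommGroup 𝔤] [NormedSpace ℂ 𝔤]
      (G : Type) [TopologicalSpace G] [ChartedSpace 𝔤 G] [Group G] [LieGroup 𝓘(ℂ, 𝔤) ω G]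
      (N K : Subgroup G) [N.Normal], IsCompactFormOf 𝔤 K N →
    ∀ (ι : Type) [Fintype ι] [DecidableEq ι] [Nonempty ι] (M : ι → Type)
      [∀ i, NormedAddCommGroup (M i)] [∀ i, NormedSpace ℂ (M i)]
      [∀ i, FiniteDimensional ℂ (M i)]
      (B : Type) [NormedAddCommGroup B] [NormedSpace ℂ B] [FiniteDimensional ℂ B]
      (ρ : ∀ i, GMod 𝔤 G (M i)) (ρL : GMod 𝔤 G ℂ) (ρB : GMod 𝔤 G B)
      (ρV : GMod 𝔤 G ((∀ i, M i) × B)) (f : ContinuousMultilinearMap ℂ M ℂ) (p : B → ℂ),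
      IsProd ρ ρB ρV → IsEqui ρ ρL f → IsBase N ρL ρB p →
      (∀ y ∈ Yf f p, Tf f p y ≠ Set.univ) ∧
      (EllC ρB p → EllY ρV f p) ∧
      ((∀ x, Fixed N ρ x → ev f x = 0) → (EllY ρV f p ↔ EllC ρB p)) ∧
      (N = ⊤ → (EllY ρV f p ↔ EllYN N ρV f p) ∧
        (EllY ρV f p ↔ (∃ x, Fixed N ρ x ∧ ev f x ≠ 0) ∨ EllC ρB p)) := by
  intro 𝔤 _ _ G _ _ _ _ N K _ hK ι _ _ _ M _ _ _ B _ _ _ ρ ρL ρB ρV f p hV hf hp
  obtain ⟨h1, h2, h3, h4⟩ := mainOf pr_DS mAA mOF mNC 𝔤 G N K hK ι M B ρ ρL ρB ρV f p hV hf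
    hp.hol hp.equi hp.smooth hp.triv (Yf f p) (Tf f p) _ _ rfl rfl rfl rfl
  refine ⟨h1, h2, fun h => h3 fun x hx => h x fun i n hn => hx n hn i, fun hN => ?_⟩
  obtain ⟨h5, h6⟩ := h4 hN
  refine ⟨h5, ?_⟩
  have h7 : (∃ x, (∀ g i, (ρ i).act g (x i) = x i) ∧ f x ≠ 0) ↔
      (∃ x, Fixed N ρ x ∧ ev f x ≠ 0) := by
    constructor
    · rintro ⟨x, hx, hf⟩
      exact ⟨x, fun i n _ => hx n i, hf⟩
    · rintro ⟨x, hx, hf⟩
      exact ⟨x, fun g i => hx i g (by rw [hN]; exact Subgroup.mem_top g), hf⟩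
  rw [h7] at h6
  exact h6

end Pool.Agent.Work.MP_e4a69c_an.ML
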