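import Pool.Agent.Work.MP_e4a69c_an.ML.I_MI

set_option autoImplicit false

namespace Pool.Agent.Work.MP_e4a69c_an.ML

open scoped Manifold ContDiff Topology
open Pool.Agent.Work.MP_e4a69c_an.SU

theorem IMZ.sl_self {ι : Type} [DecidableEq ι] {M : ι → Type} [∀ i, NormedAddCommGroup (M i)]
    [∀ i, NormedSpace ℂ (M i)] (f : ContinuousMultilinearMap ℂ M ℂ) (x : ∀ i, M i) (j : ι) :
    sl f x j (x j) = f x := by
  rw [sl_apply, Function.update_eq_self]

/-- item MZ -/
theorem pr_MZ : StMZ := by
  intro 𝔤 _ _ G _ _ _ _ ι _ _ M _ _ _ B _ _ _ ρ ρL ρB ρV f p hV hp hpe hs hE j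
  obtain ⟨W, iW1, iW2, iW3, σ, Z, hdom⟩ := hE
  -- the corrected spray
  obtain ⟨Z1, hZ1⟩ : ∃ Z1 : B × W → B, ∀ u, Z1 u = Z.s u - Z.s (u.1, 0) + u.1 := ⟨_, fun _ => rfl⟩
  have hZ1d : Differentiable ℂ Z1 := by
    have e : Z1 = fun u => Z.s u - Z.s (u.1, 0) + u.1 := funext hZ1
    rw [e]
    have h1 : Differentiable ℂ (fun u : B × W => Z.s (u.1, 0)) :=
      Z.hol.comp (differentiable_fst.prodMk (differentiable_const _))
    exact (Z.hol.sub h1).add differentiable_fst
  have hZ10 : ∀ z, Z1 (z, 0) = z := fun z => by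
    rw [hZ1]
    simp
  have hZ1C : ∀ z w, p z = 0 → Z1 (z, w) = Z.s (z, w) := fun z w hz => by
    rw [hZ1, Z.zero z hz]
    simp
  have hZ1e : ∀ g z w, Z1 (ρB.act g z, σ.act g w) = ρB.act g (Z1 (z, w)) := by
    intro g z w
    have h0 : Z.s (ρB.act g z, 0) = ρB.act g (Z.s (z, 0)) := by
      have h := Z.equi g z 0
      rwa [map_zero] at h
    rw [hZ1, hZ1]
    show Z.s (ρB.act g z, σ.act g w) - Z.s (ρB.act g z, 0) + ρB.act g z =
      ρB.act g (Z.s (z, w) - Z.s (z, 0) + z)
    rw [h0, Z.equi, map_add, map_sub]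
  -- the factor
  obtain ⟨a, had, ha⟩ := aGD (B × W) (fun u => p u.1) (fun u => p (Z1 u))
    (hp.comp differentiable_fst) (hp.comp hZ1d) (ISZ.fd_fst p hp hs) (by
      rintro ⟨z, w⟩ hz
      show p (Z1 (z, w)) = 0
      rw [hZ1C z w hz]
      exact Z.maps z w hz)
  have ha' : ∀ u : B × W, p (Z1 u) = a u * p u.1 := ha
  have ha0 : ∀ z, a (z, 0) = 1 := by
    have hc : Continuous (fun z : B => a (z, 0)) :=
      had.continuous.comp (continuous_id.prodMk continuous_const)
    have h := Continuous.ext_on (pr_DN B p hs) hc (continuous_const (y := (1 : ℂ))) (by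
      intro z hz
      have h1 := ha' (z, 0)
      rw [hZ10] at h1
      show a (z, 0) = 1
      have hz' : p z ≠ 0 := hz
      have h2 : a (z, 0) * p z = 1 * p z := by
        rw [one_mul]
        exact h1.symm
      exact mul_right_cancel₀ hz' h2)
    exact fun z => congrFun h z
  have hdense : Dense {u : B × W | p u.1 ≠ 0} :=
    pr_DN (B × W) (fun u => p u.1) (ISZ.fd_fst p hp hs)
  have hae : ∀ g z w, a (ρB.act g z, σ.act g w) = a (z, w) := by
    intro g
    have hc : Continuous (fun u : B × W => a (ρB.act g u.1, σ.act g u.2)) :=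
      had.continuous.comp (((ρB.act g).continuous.comp continuous_fst).prodMk
        ((σ.act g).continuous.comp continuous_snd))
    have h := Continuous.ext_on hdense hc had.continuous (by
      rintro ⟨z, w⟩ hz
      show a (ρB.act g z, σ.act g w) = a (z, w)
      have hz' : p z ≠ 0 := hz
      have hgz : p (ρB.act g z) ≠ 0 := by
        intro h0
        rw [hpe] at h0
        apply hz'
        have h1 := congrArg (ρL.act g⁻¹) h0
        rw [GMod.act_inv_act, map_zero] at h1
        exact h1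
      have h1 := ha' (ρB.act g z, σ.act g w)
      rw [hZ1e, hpe, ha' (z, w)] at h1
      have h2 : ρL.act g (a (z, w) * p z) = a (z, w) * p (ρB.act g z) := by
        rw [hpe, ← smul_eq_mul, map_smul, smul_eq_mul]
      have h3 : ρL.act g (a (z, w) * p z) = a (ρB.act g z, σ.act g w) * p (ρB.act g z) := h1
      rw [h2] at h3
      exact (mul_right_cancel₀ hgz h3).symm)
    exact fun z w => congrFun h (z, w)
  -- the lifted spray
  have hd1 : Differentiable ℂ (fun v : ((∀ i, M i) × B) × W => (v.1.2, v.2)) :=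
    (differentiable_snd.comp differentiable_fst).prodMk differentiable_snd
  have hd0 : Differentiable ℂ (fun v : ((∀ i, M i) × B) × W => v.1.1) :=
    differentiable_fst.comp differentiable_fst
  have hd2 : Differentiable ℂ (fun v : ((∀ i, M i) × B) × W => v.1.1 j) :=
    (ContinuousLinearMap.proj (R := ℂ) (φ := M) j).differentiable.comp hd0
  have hd3 : Differentiable ℂ (fun v : ((∀ i, M i) × B) × W =>
      IMI.em M j ((a (v.1.2, v.2) - 1) • v.1.1 j)) :=
    (IMI.em M j).differentiable.comp (((had.comp hd1).sub_const 1).smul hd2)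
  let S : Spray ρV (fs f p) σ :=
    { s := fun v => (v.1.1 + IMI.em M j ((a (v.1.2, v.2) - 1) • v.1.1 j), Z1 (v.1.2, v.2))
      hol := (hd0.add hd3).prodMk (hZ1d.comp hd1)
      zero := by
        rintro ⟨x, z⟩ _
        show (x + IMI.em M j ((a (z, 0) - 1) • x j), Z1 (z, 0)) = (x, z)
        rw [ha0, hZ10, sub_self, zero_smul, map_zero, add_zero]
      maps := by
        rintro ⟨x, z⟩ w hy
        have hy' : f x - p z = 0 := hy
        show f (x + IMI.em M j ((a (z, w) - 1) • x j)) - p (Z1 (z, w)) = 0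
        rw [IMI.f_add, ha' (z, w), map_smul, smul_eq_mul, IMZ.sl_self]
        show f x + (a (z, w) - 1) * f x - a (z, w) * p z = 0
        linear_combination a (z, w) * hy'
      equi := by
        rintro g ⟨x, z⟩ w
        rw [hV]
        show ((fun i => (ρ i).act g (x i)) +
            IMI.em M j ((a (ρB.act g z, σ.act g w) - 1) • (ρ j).act g (x j)),
            Z1 (ρB.act g z, σ.act g w)) = _
        rw [hV, hae, hZ1e]
        refine Prod.ext ?_ rfl
        funext k
        show (ρ k).act g (x k) + IMI.em M j ((a (z, w) - 1) • (ρ j).act g (x j)) k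
          = (ρ k).act g (x k + IMI.em M j ((a (z, w) - 1) • x j) k)
        rw [map_add]
        congr 1
        by_cases hk : k = j
        · subst hk
          rw [IMI.em_same, IMI.em_same, map_smul]
        · rw [IMI.em_ne j k hk, IMI.em_ne j k hk, map_zero] }
  refine ⟨W, iW1, iW2, iW3, σ, S, ?_⟩
  rintro ⟨x, z⟩ hy hz b hb
  have hz' : p z = 0 := hz
  have hb' : fderiv ℂ p z b = 0 := hb
  obtain ⟨w, hw⟩ := hdom z hz' b hb'
  refine ⟨w, ?_⟩
  have hfun : (fun w : W => S.s ((x, z), w)) =
      fun w : W => (x + IMI.em M j ((a (z, w) - 1) • x j), Z.s (z, w)) := by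
    funext w
    show (x + IMI.em M j ((a (z, w) - 1) • x j), Z1 (z, w)) = _
    rw [hZ1C z w hz']
  have hZd : DifferentiableAt ℂ (fun w : W => Z.s (z, w)) 0 :=
    (Z.hol.comp ((differentiable_const z).prodMk differentiable_id)) 0
  have had' : DifferentiableAt ℂ (fun w : W => a (z, w)) 0 :=
    (had.comp ((differentiable_const z).prodMk differentiable_id)) 0
  have h1 : HasFDerivAt (fun w : W => (a (z, w) - 1) • x j)
      ((fderiv ℂ (fun w : W => a (z, w)) 0).smulRight (x j)) 0 :=
    (had'.hasFDerivAt.sub_const 1).smul_const (x j)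
  have h2 : HasFDerivAt (fun w : W => IMI.em M j ((a (z, w) - 1) • x j))
      ((IMI.em M j).comp ((fderiv ℂ (fun w : W => a (z, w)) 0).smulRight (x j))) 0 :=
    HasFDerivAt.comp (0 : W) (g := IMI.em M j) (f := fun w : W => (a (z, w) - 1) • x j)
      (IMI.em M j).hasFDerivAt h1
  have hder := (h2.const_add x).prodMk hZd.hasFDerivAt
  rw [hfun, hder.fderiv]
  refine ⟨hw, ?_⟩
  intro k hk
  show IMI.em M j (((fderiv ℂ (fun w : W => a (z, w)) 0).smulRight (x j)) w) k = 0
  exact IMI.em_ne j k hk _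

end Pool.Agent.Work.MP_e4a69c_an.ML
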