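import Pool.Agent.Work.MP_e4a69c_an.ML.Stmts
import Pool.Agent.Work.MP_e4a69c_an.SU.Final

/-! Theorem ML from its items. -/

set_option autoImplicit false

namespace Pool.Agent.Work.MP_e4a69c_an.ML

open scoped Manifold ContDiff Topology
open Pool.Agent.Work.MP_e4a69c_an.SU

theorem mainOf (hDS : StDS) (hAA : StAA) (hOF : StOF) (hNC : StNC) :
    ∀ (𝔤 : Type) [NormedAddCommGroup 𝔤] [NormedSpace ℂ 𝔤]
      (G : Type) [TopologicalSpace G] [ChartedSpace 𝔤 G] [Group G] [LieGroup 𝓘(ℂ, 𝔤) ω G]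
      (N K : Subgroup G) [N.Normal], IsCompactFormOf 𝔤 K N →
    ∀ (ι : Type) [Fintype ι] [DecidableEq ι] [Nonempty ι] (M : ι → Type)
      [∀ i, NormedAddCommGroup (M i)] [∀ i, NormedSpace ℂ (M i)]
      [∀ i, FiniteDimensional ℂ (M i)]
      (B : Type) [NormedAddCommGroup B] [NormedSpace ℂ B] [FiniteDimensional ℂ B]
      (ρ : ∀ i, GMod 𝔤 G (M i)) (ρL : GMod 𝔤 G ℂ) (ρB : GMod 𝔤 G B)
      (ρV : GMod 𝔤 G ((∀ i, M i) × B)) (f : ContinuousMultilinearMap ℂ M ℂ) (p : B → ℂ),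
      (∀ g x z, ρV.act g (x, z) = (fun i => (ρ i).act g (x i), ρB.act g z)) →
      (∀ g x, f (fun i => (ρ i).act g (x i)) = ρL.act g (f x)) →
      Differentiable ℂ p → (∀ g z, p (ρB.act g z) = ρL.act g (p z)) →
      (∀ z, p z = 0 → fderiv ℂ p z ≠ 0) → (∀ n ∈ N, ∀ z, ρB.act n z = z) →
    ∀ (Y : Set ((∀ i, M i) × B)) (T : (∀ i, M i) × B → Set ((∀ i, M i) × B))
      (C : Set B) (TC : B → Set B),
      Y = {y | f y.1 = p y.2} →
      T = (fun y => {τ | ∑ i, f (Function.update y.1 i (τ.1 i)) = fderiv ℂ p y.2 τ.2}) →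
      C = {z | p z = 0} → TC = (fun z => {b | fderiv ℂ p z b = 0}) →
      (∀ y ∈ Y, T y ≠ Set.univ) ∧
      (GEll ρB C TC → GEll ρV Y T) ∧
      ((∀ x, (∀ n ∈ N, ∀ i, (ρ i).act n (x i) = x i) → f x = 0) →
        (GEll ρV Y T ↔ GEll ρB C TC)) ∧
      (N = ⊤ →
        (GEll ρV Y T ↔ GEll ρV (Y ∩ {y | ∀ n ∈ N, ρV.act n y = y})
          (fun y => T y ∩ {τ | ∀ n ∈ N, ρV.act n τ = τ})) ∧
        (GEll ρV Y T ↔ (∃ x, (∀ g i, (ρ i).act g (x i) = x i) ∧ f x ≠ 0) ∨ GEll ρB C TC)) := by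
  intro 𝔤 _ _ G _ _ _ _ N K _ hK ι _ _ _ M _ _ _ B _ _ _ ρ ρL ρB ρV f p hV hf hp heq hs hB
    Y T C TC hY hT hC hTC
  have hV' : ∀ g y, ρV.act g y = (fun i => (ρ i).act g (y.1 i), ρB.act g y.2) :=
    fun g y => hV g y.1 y.2
  obtain ⟨d1, d2, d3⟩ := hDS ι M B f
  obtain ⟨d4, d5⟩ := d3 p hp
  have hY' : Y = {y | fs f p y = 0} := by
    rw [hY]
    ext y
    exact sub_eq_zero.symm
  have hT' : T = (fun y => {τ | fderiv ℂ (fs f p) y τ = 0}) := by
    rw [hT]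
    funext y
    ext τ
    show ∑ i, f (Function.update y.1 i (τ.1 i)) = fderiv ℂ p y.2 τ.2 ↔
      fderiv ℂ (fs f p) y τ = 0
    rw [d5, sub_eq_zero]
    rfl
  have E1 : GEll ρV Y T ↔ GElliptic ρV (fs f p) := by
    rw [hY', hT', ← gell_iff]
  have E2 : GEll ρB C TC ↔ GElliptic ρB p := by
    rw [hC, hTC, ← gell_iff]
  have E3 : GEll ρV Y T → GEll ρV (Y ∩ {y | ∀ n ∈ N, ρV.act n y = y})
      (fun y => T y ∩ {τ | ∀ n ∈ N, ρV.act n τ = τ}) := by
    intro h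
    rw [E1] at h
    have h1 := aOG 𝔤 G K N hK _ ρV (fs f p) d4 h
    rw [hY', hT']
    exact (gell_fixed K N hK ρV (fs f p) d4).1 h1
  have E4 : (∀ x, (∀ n ∈ N, ∀ i, (ρ i).act n (x i) = x i) → f x = 0) →
      GEll ρV (Y ∩ {y | ∀ n ∈ N, ρV.act n y = y})
      (fun y => T y ∩ {τ | ∀ n ∈ N, ρV.act n τ = τ}) → GEll ρB C TC := by
    intro h0 h
    rw [E2]
    rw [hY', hT'] at h
    exact hNC 𝔤 G N ι M B ρ ρB ρV f p hV' hp hB h0 h
  have E5 : GEll ρB C TC → GEll ρV Y T := by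
    intro h
    rw [E1]
    rw [E2] at h
    exact hAA 𝔤 G ι M B ρ ρL ρB ρV f p hV' hf hp heq hs h
  have E6 : N = ⊤ → (∃ x, (∀ g i, (ρ i).act g (x i) = x i) ∧ f x ≠ 0) → GEll ρV Y T := by
    rintro hN ⟨x0, hx0, hfx0⟩
    have hL := trivial_on_values N ρL ρB p hs heq hB
    rw [E1]
    refine hOF 𝔤 G ι M B ρ ρV f p ?_ ?_ hp hs x0 hx0 hfx0
    · intro g y
      rw [hV', hB g (by rw [hN]; exact Subgroup.mem_top g)]
    · intro g x
      rw [hf, hL g (by rw [hN]; exact Subgroup.mem_top g)]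
  refine ⟨?_, E5, fun h0 => ⟨fun h => E4 h0 (E3 h), E5⟩, fun hN => ?_⟩
  · intro y hy hTy
    have h1 : ∀ τ, fderiv ℂ (fs f p) y τ = 0 := by
      intro τ
      have h2 : τ ∈ T y := by rw [hTy]; exact Set.mem_univ _
      rw [hT'] at h2
      exact h2
    have hy' : f y.1 = p y.2 := by
      rw [hY] at hy
      exact hy
    obtain ⟨j⟩ : Nonempty ι := inferInstance
    have h3 : ∀ b, fderiv ℂ p y.2 b = 0 := by
      intro b
      have h4 := h1 (0, b)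
      rw [d5] at h4
      have h5 : ∑ j, sl f y.1 j ((0 : ∀ i, M i) j) = 0 := by
        apply Finset.sum_eq_zero
        intro i _
        exact map_zero _
      have h6 : ∑ j, sl f y.1 j (((0 : ∀ i, M i), b).1 j) - fderiv ℂ p y.2 ((0 : ∀ i, M i), b).2
        = 0 - fderiv ℂ p y.2 b := by rw [← h5]
      rw [h6] at h4
      linear_combination -h4
    have h7 : p y.2 ≠ 0 := by
      intro h8
      exact hs y.2 h8 (ContinuousLinearMap.ext h3)
    apply h7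
    have h9 := h1 (Pi.single j (y.1 j), 0)
    rw [d5] at h9
    have h10 : ∑ i, sl f y.1 i (Pi.single (M := M) j (y.1 j) i) = sl f y.1 j (y.1 j) := by
      rw [Finset.sum_eq_single j]
      · rw [Pi.single_eq_same]
      · intro i _ hi
        rw [Pi.single_eq_of_ne hi]
        exact map_zero _
      · intro h
        exact absurd (Finset.mem_univ j) h
    have h11 : sl f y.1 j (y.1 j) = f y.1 := by
      rw [sl_apply, Function.update_eq_self]
    have h12 : ∑ i, sl f y.1 i ((Pi.single (M := M) j (y.1 j), (0 : B)).1 i)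
        - fderiv ℂ p y.2 (Pi.single (M := M) j (y.1 j), (0 : B)).2 = f y.1 - 0 := by
      rw [← h11, ← h10, map_zero]
    rw [h12, sub_zero] at h9
    rw [← hy', h9]
  · have E7 : GEll ρV (Y ∩ {y | ∀ n ∈ N, ρV.act n y = y})
        (fun y => T y ∩ {τ | ∀ n ∈ N, ρV.act n τ = τ}) →
        (∃ x, (∀ g i, (ρ i).act g (x i) = x i) ∧ f x ≠ 0) ∨ GEll ρB C TC := by
      intro h
      by_cases h0 : ∃ x, (∀ g i, (ρ i).act g (x i) = x i) ∧ f x ≠ 0
      · exact Or.inl h0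
      · refine Or.inr (E4 ?_ h)
        intro x hx
        by_contra h1
        exact h0 ⟨x, fun g i => hx g (by rw [hN]; exact Subgroup.mem_top g) i, h1⟩
    have E8 : (∃ x, (∀ g i, (ρ i).act g (x i) = x i) ∧ f x ≠ 0) ∨ GEll ρB C TC →
        GEll ρV Y T := by
      rintro (h | h)
      · exact E6 hN h
      · exact E5 h
    exact ⟨⟨E3, fun h => E8 (E7 h)⟩, ⟨fun h => E7 (E3 h), E8⟩⟩

end Pool.Agent.Work.MP_e4a69c_an.ML
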