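import Pool.Agent.Work.MP_e4a69c_an.ML.Defs

/-! Items of theorem ML (MP_e4a69c_an). Every docstring is a complete proof. Notation: `V = (Π M_i) × B`,
`y = (x,z)`, `F = fs f p`, `F(x,z) = f(x) - p(z)`, `c_j = sl f x j`, `c_j(m) = f(update x j m)`; it does
not depend on `x j`. Proved lemmas of the SU library may be used: `pr_QD`, `pr_QH`, `pr_QE` have
hypotheses, the closed forms are in SU/All.lean (`aXX`). -/

set_option autoImplicit false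

namespace Pool.Agent.Work.MP_e4a69c_an.ML

open scoped Manifold ContDiff Topology
open Pool.Agent.Work.MP_e4a69c_an.SU

/-- DS. PROOF. `sl f (update x j m) j = sl f x j` by `Function.update_idem`. Equivariance: put
`m' = (ρ j)(g⁻¹) m`; `f(update (g x) j m) = f(g (update x j m')) = L(g) f(update x j m')`. Derivative of
`F`: `f` is differentiable with derivative `ContinuousMultilinearMap.linearDeriv`
(`ContinuousMultilinearMap.hasFDerivAt`, `linearDeriv_apply`). `x ↦ sl f x j` is differentiable because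
`M j` is finite dimensional: for a basis `e` of `M j` an element `ζ` of `M j →L[ℂ] ℂ` is a (continuous)
linear function of the `ζ (e i)`, and `x ↦ f(update x j m)` is differentiable (`x ↦ update x j m` by
`differentiable_pi`); (see how SU/I_GO.lean does it). -/
def StDS : Prop := ∀ (ι : Type) [Fintype ι] [DecidableEq ι] (M : ι → Type)
  [∀ i, NormedAddCommGroup (M i)] [∀ i, NormedSpace ℂ (M i)] [∀ i, FiniteDimensional ℂ (M i)]
  (B : Type) [NormedAddCommGroup B] [NormedSpace ℂ B] (f : ContinuousMultilinearMap ℂ M ℂ),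
  (∀ x j m, sl f (Function.update x j m) j = sl f x j) ∧
  (∀ j, Differentiable ℂ (fun x => sl f x j)) ∧
  (∀ p : B → ℂ, Differentiable ℂ p → Differentiable ℂ (fs f p) ∧
    ∀ y τ, fderiv ℂ (fs f p) y τ = ∑ j, sl f y.1 j (τ.1 j) - fderiv ℂ p y.2 τ.2)

/-- EQ. PROOF. `m' = (ρ j)(g⁻¹) m`; `update (g x) j m = g (update x j m')` (coordinate by coordinate), so
`sl f (g x) j m = f(g (update x j m')) = L(g) f(update x j m')`. -/
def StEQ : Prop := ∀ (𝔤 : Type) [NormedAddCommGroup 𝔤] [NormedSpace ℂ 𝔤]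
  (G : Type) [TopologicalSpace G] [ChartedSpace 𝔤 G] [Group G] [LieGroup 𝓘(ℂ, 𝔤) ω G]
  (ι : Type) [Fintype ι] [DecidableEq ι] (M : ι → Type)
  [∀ i, NormedAddCommGroup (M i)] [∀ i, NormedSpace ℂ (M i)]
  (ρ : ∀ i, GMod 𝔤 G (M i)) (ρL : GMod 𝔤 G ℂ) (f : ContinuousMultilinearMap ℂ M ℂ),
    (∀ g x, f (fun i => (ρ i).act g (x i)) = ρL.act g (f x)) →
    ∀ g x j, sl f (fun i => (ρ i).act g (x i)) j = ((ρ j).hom ρL).act g (sl f x j)

/-- MI (shear in the slot j). PROOF (with DS, EQ; QD, QH, QE, BD of SU). As SU/I_SM.lean, with `ξ`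
replaced by `c = sl f x j`. `W = (M j →L[ℂ] ℂ) →L[ℂ] B` with `((ρ j).hom ρL).hom ρB`,
`s((x,z),t) = (update x j (x j + J((qq p z (t c)) ∘ t)), z + t c)`. `F` is preserved: by linearity in the
slot `j`, `f(new x) = f x + c(J(...)) = f x + qq p z (t c) (t c) = f x + p(z + t c) - p z`. Equivariance:
`c(g x) = g c(x)` (EQ), `t' = g t g⁻¹`, `t'(g c) = g (t c)`; `η := J((qq p z (t c)) ∘ t)`,
`η' := J((qq p (g z) (t'(g c))) ∘ t')`: for every `ζ` in the dual of `M j`,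
`ζ(η') = qq p (g z) (g t c) (g t g⁻¹ ζ) = L(g) (qq p z (t c) (t (g⁻¹ ζ))) = L(g) ((g⁻¹ ζ)(η)) = ζ(g η)`,
and functionals separate points. Derivative in `t` at `0`: in the slot `j` it is `J(dp(z) ∘ t)`, `0` in
the other slots, and `t c` in `B`. -/
def StMI : Prop := ∀ (𝔤 : Type) [NormedAddCommGroup 𝔤] [NormedSpace ℂ 𝔤]
  (G : Type) [TopologicalSpace G] [ChartedSpace 𝔤 G] [Group G] [LieGroup 𝓘(ℂ, 𝔤) ω G]
  (ι : Type) [Fintype ι] [DecidableEq ι] (M : ι → Type)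
  [∀ i, NormedAddCommGroup (M i)] [∀ i, NormedSpace ℂ (M i)] [∀ i, FiniteDimensional ℂ (M i)]
  (B : Type) [NormedAddCommGroup B] [NormedSpace ℂ B] [FiniteDimensional ℂ B]
  (ρ : ∀ i, GMod 𝔤 G (M i)) (ρL : GMod 𝔤 G ℂ) (ρB : GMod 𝔤 G B)
  (ρV : GMod 𝔤 G ((∀ i, M i) × B)) (f : ContinuousMultilinearMap ℂ M ℂ) (p : B → ℂ),
    (∀ g y, ρV.act g y = (fun i => (ρ i).act g (y.1 i), ρB.act g y.2)) →
    (∀ g x, f (fun i => (ρ i).act g (x i)) = ρL.act g (f x)) →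
    Differentiable ℂ p → (∀ g z, p (ρB.act g z) = ρL.act g (p z)) →
    ∀ j, Covers ρV (fs f p) (fun y => RI f (fderiv ℂ p y.2) j y.1)

/-- MK (skew sprays in the slot j). PROOF (with DS, EQ; BD of SU). `W = (M j →L[ℂ] ℂ) →L[ℂ] M j` with
`((ρ j).hom ρL).hom (ρ j)`, `s((x,z),t) = (update x j (x j + t c - J(c ∘ t)), z)`, `c = sl f x j`. `F` is
preserved: `c(t c) - c(J(c ∘ t)) = c(t c) - c(t c) = 0`. Equivariance: `t' = g t g⁻¹`, `t'(g c) = g(t c)`, and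
`J((g c) ∘ t') = g J(c ∘ t)`: for every `ζ`, `ζ(J((g c) ∘ t')) = (g c)(g t g⁻¹ ζ) = L(g) c(t (g⁻¹ ζ))
= L(g) ((g⁻¹ ζ)(J(c ∘ t))) = ζ(g J(c ∘ t))`. The map is affine in `t`, its derivative is
`t c - J(c ∘ t)` in the slot `j`. If `c ≠ 0` and `c(m) = 0`: choose `m0` with `c(m0) = 1`, `t(ζ) = ζ(m0) m`;
`t c = m`, `ζ(J(c ∘ t)) = c(t ζ) = ζ(m0) c(m) = 0` for all `ζ`. -/
def StMK : Prop := ∀ (𝔤 : Type) [NormedAddCommGroup 𝔤] [NormedSpace ℂ 𝔤]
  (G : Type) [TopologicalSpace G] [ChartedSpace 𝔤 G] [Group G] [LieGroup 𝓘(ℂ, 𝔤) ω G]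
  (ι : Type) [Fintype ι] [DecidableEq ι] (M : ι → Type)
  [∀ i, NormedAddCommGroup (M i)] [∀ i, NormedSpace ℂ (M i)] [∀ i, FiniteDimensional ℂ (M i)]
  (B : Type) [NormedAddCommGroup B] [NormedSpace ℂ B] [FiniteDimensional ℂ B]
  (ρ : ∀ i, GMod 𝔤 G (M i)) (ρL : GMod 𝔤 G ℂ) (ρB : GMod 𝔤 G B)
  (ρV : GMod 𝔤 G ((∀ i, M i) × B)) (f : ContinuousMultilinearMap ℂ M ℂ) (p : B → ℂ),
    (∀ g y, ρV.act g y = (fun i => (ρ i).act g (y.1 i), ρB.act g y.2)) →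
    (∀ g x, f (fun i => (ρ i).act g (x i)) = ρL.act g (f x)) →
    ∀ j, Covers ρV (fs f p) (fun y => RK f j y.1)

/-- MS (scalings). PROOF. `W = ℂ`, trivial module,
`s((x,z),a) = (update (update x j (e^a x_j)) k (e^(-a) x_k), z)` (`j ≠ k`; for `j = k` the set `RS` is
empty and the constant spray `s(y,a) = y` does). `f` of it is `e^a e^(-a) f x` (linearity in the slots
`j` and `k`: `f.map_update_smul`). Derivative at `a = 0`. -/
def StMS : Prop := ∀ (𝔤 : Type) [NormedAddCommGroup 𝔤] [NormedSpace ℂ 𝔤]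
  (G : Type) [TopologicalSpace G] [ChartedSpace 𝔤 G] [Group G] [LieGroup 𝓘(ℂ, 𝔤) ω G]
  (ι : Type) [Fintype ι] [DecidableEq ι] (M : ι → Type)
  [∀ i, NormedAddCommGroup (M i)] [∀ i, NormedSpace ℂ (M i)] [∀ i, FiniteDimensional ℂ (M i)]
  (B : Type) [NormedAddCommGroup B] [NormedSpace ℂ B] [FiniteDimensional ℂ B]
  (ρ : ∀ i, GMod 𝔤 G (M i)) (ρB : GMod 𝔤 G B)
  (ρV : GMod 𝔤 G ((∀ i, M i) × B)) (f : ContinuousMultilinearMap ℂ M ℂ) (p : B → ℂ),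
    (∀ g y, ρV.act g y = (fun i => (ρ i).act g (y.1 i), ρB.act g y.2)) →
    ∀ j k, Covers ρV (fs f p) (fun y => RS j k y.1)

/-- LA (linear algebra where some slope is not zero). PROOF. Let `S` be the span, `c_k = sl f x k`.
Write `δ_k m` for the vector with `m` in the slot `k` and `0` elsewhere (`Pi.single k m`), so
`ξ = ∑ δ_k ξ_k`. Case `α ≠ 0`, `α b0 = 1`. (i) If `c_k = 0` then `(δ_k m, 0) ∈ RI k` for all `m`: `t ζ = ζ(m) b0`.
(ii) If `c_k ≠ 0`, `c_k(m0) = 1`, and `m`, `b` satisfy `c_k(m) = α(b)`, then `(δ_k m, b) ∈ S`: `t ζ = ζ(m0) b`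
gives `(δ_k (α(b) m0), b) ∈ RI k` (as `ζ(α(b) m0) = α(t ζ)`), and `m - α(b) m0 ∈ ker c_k`, so
`(δ_k (m - α(b) m0), 0) ∈ RK k`. Now `τ = (ξ,b)`: for `k ≠ j0` put `b_k = c_k(ξ_k) b0`; then `(δ_k ξ_k, b_k) ∈ S` by
(i) or (ii) (`b_k = 0` if `c_k = 0`), and `(δ_{j0} ξ_{j0}, b - ∑_{k ≠ j0} b_k) ∈ S` by (ii), because
`c_{j0}(ξ_{j0}) = α(b) - ∑_{k ≠ j0} c_k(ξ_k)`. Sum up. Case `α = 0`: then `f x ≠ 0`, and `c_k(x_k) = f x ≠ 0`
for all `k` (`update_eq_self`). `(0,b) ∈ RI j0`: `t ζ = ζ(m0) b` with `c_{j0}(m0) = 1`. For `k ≠ j0` put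
`a_k = c_k(ξ_k)/f x`: `(δ_k (a_k x_k) - δ_{j0} (a_k x_{j0}), 0) ∈ RS k j0`, and
`(δ_k (ξ_k - a_k x_k), 0) ∈ RK k`. What remains is `(δ_{j0} m, 0)` with
`m = ξ_{j0} + ∑_{k ≠ j0} a_k x_{j0}`, `c_{j0}(m) = c_{j0}(ξ_{j0}) + ∑_{k ≠ j0} c_k(ξ_k) = 0`: `RK j0`. -/
def StLA : Prop := ∀ (ι : Type) [Fintype ι] [DecidableEq ι] (M : ι → Type)
  [∀ i, NormedAddCommGroup (M i)] [∀ i, NormedSpace ℂ (M i)] [∀ i, FiniteDimensional ℂ (M i)]
  (B : Type) [NormedAddCommGroup B] [NormedSpace ℂ B]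
  (f : ContinuousMultilinearMap ℂ M ℂ) (α : B →L[ℂ] ℂ) (x : ∀ i, M i) (j0 : ι),
    sl f x j0 ≠ 0 → (f x = 0 → α ≠ 0) →
    ∀ τ : (∀ i, M i) × B, ∑ j, sl f x j (τ.1 j) = α τ.2 →
      τ ∈ Submodule.span ℂ ((⋃ j, RI f α j x) ∪ (⋃ j, RK f j x) ∪ (⋃ j, ⋃ k, RS j k x))

/-- BA (base spray). PROOF (with MI, MK, MS, LA, DS; CC, CF of SU). `Covers` is monotone in `R`. By CF
(`ι` is finite: `Fintype.equivFin`) and CC the span of all the ranges is covered. At `y = (x,z)` with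
`F y = 0`, `sl f x j ≠ 0`, apply LA with `α = dp(z)`: if `f x = 0` then `p z = 0` so `dp(z) ≠ 0`. The
condition `fderiv F y τ = 0` is the equation of LA (DS). -/
def StBA : Prop := ∀ (𝔤 : Type) [NormedAddCommGroup 𝔤] [NormedSpace ℂ 𝔤]
  (G : Type) [TopologicalSpace G] [ChartedSpace 𝔤 G] [Group G] [LieGroup 𝓘(ℂ, 𝔤) ω G]
  (ι : Type) [Fintype ι] [DecidableEq ι] (M : ι → Type)
  [∀ i, NormedAddCommGroup (M i)] [∀ i, NormedSpace ℂ (M i)] [∀ i, FiniteDimensional ℂ (M i)]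
  (B : Type) [NormedAddCommGroup B] [NormedSpace ℂ B] [FiniteDimensional ℂ B]
  (ρ : ∀ i, GMod 𝔤 G (M i)) (ρL : GMod 𝔤 G ℂ) (ρB : GMod 𝔤 G B)
  (ρV : GMod 𝔤 G ((∀ i, M i) × B)) (f : ContinuousMultilinearMap ℂ M ℂ) (p : B → ℂ),
    (∀ g y, ρV.act g y = (fun i => (ρ i).act g (y.1 i), ρB.act g y.2)) →
    (∀ g x, f (fun i => (ρ i).act g (x i)) = ρL.act g (f x)) →
    Differentiable ℂ p → (∀ g z, p (ρB.act g z) = ρL.act g (p z)) →
    (∀ z, p z = 0 → fderiv ℂ p z ≠ 0) →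
    Covers ρV (fs f p) (fun y => {τ | (∃ j, sl f y.1 j ≠ 0) ∧ fderiv ℂ (fs f p) y τ = 0})

/-- MZ (lift of a spray of `C = {p = 0}`). PROOF (GD, DN of SU). Word for word as SU/I_SZ.lean: entire
equivariant `Z1`, `Z1(z,0) = z`, and entire `a` with `p(Z1(z,w)) = a(z,w) p(z)`, `a(z,0) = 1`,
`a(g z,g w) = a(z,w)`. Spray on `W`: `s((x,z),w) = (update x j (a(z,w) x_j), Z1(z,w))`;
`f(new x) = a f(x)`. At `(x,z)` with `p z = 0`, `dp(z) b = 0`, take `w` with `D_w Z(z,0) w = b`: the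
derivative of `s` in `w` at `0` is `((d_w a) x_j in the slot j, 0 in the others, b)`. -/
def StMZ : Prop := ∀ (𝔤 : Type) [NormedAddCommGroup 𝔤] [NormedSpace ℂ 𝔤]
  (G : Type) [TopologicalSpace G] [ChartedSpace 𝔤 G] [Group G] [LieGroup 𝓘(ℂ, 𝔤) ω G]
  (ι : Type) [Fintype ι] [DecidableEq ι] (M : ι → Type)
  [∀ i, NormedAddCommGroup (M i)] [∀ i, NormedSpace ℂ (M i)] [∀ i, FiniteDimensional ℂ (M i)]
  (B : Type) [NormedAddCommGroup B] [NormedSpace ℂ B] [FiniteDimensional ℂ B]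
  (ρ : ∀ i, GMod 𝔤 G (M i)) (ρL : GMod 𝔤 G ℂ) (ρB : GMod 𝔤 G B)
  (ρV : GMod 𝔤 G ((∀ i, M i) × B)) (f : ContinuousMultilinearMap ℂ M ℂ) (p : B → ℂ),
    (∀ g y, ρV.act g y = (fun i => (ρ i).act g (y.1 i), ρB.act g y.2)) →
    Differentiable ℂ p → (∀ g z, p (ρB.act g z) = ρL.act g (p z)) →
    (∀ z, p z = 0 → fderiv ℂ p z ≠ 0) → GElliptic ρB p → ∀ j : ι,
    ∃ (W : Type) (_ : NormedAddCommGroup W) (_ : NormedSpace ℂ W) (_ : FiniteDimensional ℂ W)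
      (σ : GMod 𝔤 G W) (S : Spray ρV (fs f p) σ),
      ∀ y : (∀ i, M i) × B, fs f p y = 0 → p y.2 = 0 → ∀ b, fderiv ℂ p y.2 b = 0 →
        ∃ w : W, (fderiv ℂ (fun w : W => S.s (y, w)) 0 w).2 = b ∧
          ∀ k, k ≠ j → (fderiv ℂ (fun w : W => S.s (y, w)) 0 w).1 k = 0

/-- AA (transfer from `C` to `Y`). PROOF (with BA, MI, MZ, DS; CC, CF of SU). Composite of BA, of all MI
(CF) and of MZ for one slot `j0` (as a `Covers` statement: `R y` = set of the velocities of that spray).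
At `y = (x,z)` with some `sl f x j ≠ 0` BA is enough. Otherwise all slopes are zero, so
`f x = sl f x j0 (x j0) = 0 = p z`; `α = dp(z) ≠ 0`, `α b0 = 1`; `τ = (ξ,b)` with `α b = 0` (DS). By MZ there is
a covered `τ1` with second component `b`, zero in the slots `k ≠ j0`. `τ - τ1 = (ξ',0)` and
`(δ_k m, 0) ∈ RI k` for all `k`, `m` (`t ζ = ζ(m) b0`, `t 0 = 0`), `ξ' = ∑ δ_k ξ'_k`. -/
def StAA : Prop := ∀ (𝔤 : Type) [NormedAddCommGroup 𝔤] [NormedSpace ℂ 𝔤]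
  (G : Type) [TopologicalSpace G] [ChartedSpace 𝔤 G] [Group G] [LieGroup 𝓘(ℂ, 𝔤) ω G]
  (ι : Type) [Fintype ι] [DecidableEq ι] [Nonempty ι] (M : ι → Type)
  [∀ i, NormedAddCommGroup (M i)] [∀ i, NormedSpace ℂ (M i)] [∀ i, FiniteDimensional ℂ (M i)]
  (B : Type) [NormedAddCommGroup B] [NormedSpace ℂ B] [FiniteDimensional ℂ B]
  (ρ : ∀ i, GMod 𝔤 G (M i)) (ρL : GMod 𝔤 G ℂ) (ρB : GMod 𝔤 G B)
  (ρV : GMod 𝔤 G ((∀ i, M i) × B)) (f : ContinuousMultilinearMap ℂ M ℂ) (p : B → ℂ),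
    (∀ g y, ρV.act g y = (fun i => (ρ i).act g (y.1 i), ρB.act g y.2)) →
    (∀ g x, f (fun i => (ρ i).act g (x i)) = ρL.act g (f x)) →
    Differentiable ℂ p → (∀ g z, p (ρB.act g z) = ρL.act g (p z)) →
    (∀ z, p z = 0 → fderiv ℂ p z ≠ 0) → GElliptic ρB p → GElliptic ρV (fs f p)

/-- PH (the automorphism φ_{j,b}; `x0 = x0_j` a fixed vector of `M j`, trivial actions on `B` and `L`).
PROOF (with DS, EQ; QD, QH of SU). As SU/I_PH.lean. With `u = sl f x j x0` (a number),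
`φ(x,z) = (update x j (x j + (qq p z (u b) b) x0), z + u b)`, `ψ` the same with `-b` for `b`. `u` is the same
at `φ(x,z)` (DS). `F ∘ φ = F`: `u qq p z (u b) b = qq p z (u b) (u b) = p(z + u b) - p z` (QH). `ψ ∘ φ = id` by
`qq p (z + c) (-c) = qq p z c` with `c = u b`, and `qq` is linear in its last argument. Equivariance:
`u(g x) = u(x)` because `update (g x) j x0 = g (update x j x0)` and `f` is invariant. If `u = 0` then
`φ(x,z) = (update x j (x j + dp(z)(b) x0), z)` (QH at `0`). -/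
def StPH : Prop := ∀ (𝔤 : Type) [NormedAddCommGroup 𝔤] [NormedSpace ℂ 𝔤]
  (G : Type) [TopologicalSpace G] [ChartedSpace 𝔤 G] [Group G] [LieGroup 𝓘(ℂ, 𝔤) ω G]
  (ι : Type) [Fintype ι] [DecidableEq ι] (M : ι → Type)
  [∀ i, NormedAddCommGroup (M i)] [∀ i, NormedSpace ℂ (M i)] [∀ i, FiniteDimensional ℂ (M i)]
  (B : Type) [NormedAddCommGroup B] [NormedSpace ℂ B] [FiniteDimensional ℂ B]
  (ρ : ∀ i, GMod 𝔤 G (M i))
  (ρV : GMod 𝔤 G ((∀ i, M i) × B)) (f : ContinuousMultilinearMap ℂ M ℂ) (p : B → ℂ),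
    (∀ g y, ρV.act g y = (fun i => (ρ i).act g (y.1 i), y.2)) →
    (∀ g x, f (fun i => (ρ i).act g (x i)) = f x) →
    Differentiable ℂ p → ∀ (j : ι) (x0 : M j), (∀ g, (ρ j).act g x0 = x0) → ∀ b : B,
    ∃ φ ψ : (∀ i, M i) × B → (∀ i, M i) × B, Differentiable ℂ φ ∧ Differentiable ℂ ψ ∧
      (∀ y, ψ (φ y) = y) ∧ (∀ y, φ (ψ y) = y) ∧ (∀ y, fs f p (φ y) = fs f p y) ∧
      (∀ g y, φ (ρV.act g y) = ρV.act g (φ y)) ∧
      ∀ y : (∀ i, M i) × B, sl f y.1 j x0 = 0 →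
        φ y = (Function.update y.1 j (y.1 j + (fderiv ℂ p y.2 b) • x0), y.2)

/-- IE (inclusion and exclusion). PROOF. Claim: for all disjoint finite sets `A`, `S` of slots,
`f(v_{A,S}) = 0`, `v_{A,S}` having the coordinate `u_i` for `i ∈ A`, `x_i + u_i` for `i ∈ S`, `x_i` elsewhere.
Induction on `A`: `A = ∅` is the hypothesis. `v_{A ∪ {j},S}` has `u_j = (x_j + u_j) - x_j` in the slot `j`, so by
linearity in the slot `j` its value is `f(v_{A, S ∪ {j}}) - f(v_{A,S}) = 0`. Take `A` = all slots, `S = ∅`. -/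
def StIE : Prop := ∀ (ι : Type) [Fintype ι] [DecidableEq ι] (M : ι → Type)
  [∀ i, NormedAddCommGroup (M i)] [∀ i, NormedSpace ℂ (M i)]
  (f : ContinuousMultilinearMap ℂ M ℂ) (x u : ∀ i, M i),
    (∀ S : Finset ι, f (fun i => if i ∈ S then x i + u i else x i) = 0) → f u = 0

/-- IS (induction over the slots). PROOF (with BA for trivial `ρB`, `ρL`, PH, DS; CC, CJ of SU). Write
`t = dp(z)(b)`. Induction on `S` (`Finset.induction_on`). `S = ∅`: `f x ≠ 0` gives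
`sl f x j (x j) = f x ≠ 0` (`update_eq_self`) for any `j`; this is BA. `S = insert j S0`, `j ∉ S0`: let `R0` be the
set for `S0`, `φ` from PH for `j`, `x0 j`, `b`. By CJ the set `{τ | fderiv φ y τ ∈ R0 (φ y)}` is covered, and by
CC its union with that of BA. Let `F y = 0`, `fderiv F y τ = 0`. If some slope at `x` is nonzero: BA.
Otherwise `f(x + t x0_S) ≠ 0` and `φ y = (update x j (x j + t x0_j), z)`; adding `t x0_{S0}` to its first
component gives `x + t x0_S` (as `j ∉ S0`), so the condition for `S0` holds at `φ y` (same `z`, same `t`), and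
`fderiv F (φ y) (fderiv φ y τ) = fderiv (F ∘ φ) y τ = fderiv F y τ = 0`. -/
def StIS : Prop := ∀ (𝔤 : Type) [NormedAddCommGroup 𝔤] [NormedSpace ℂ 𝔤]
  (G : Type) [TopologicalSpace G] [ChartedSpace 𝔤 G] [Group G] [LieGroup 𝓘(ℂ, 𝔤) ω G]
  (ι : Type) [Fintype ι] [DecidableEq ι] [Nonempty ι] (M : ι → Type)
  [∀ i, NormedAddCommGroup (M i)] [∀ i, NormedSpace ℂ (M i)] [∀ i, FiniteDimensional ℂ (M i)]
  (B : Type) [NormedAddCommGroup B] [NormedSpace ℂ B] [FiniteDimensional ℂ B]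
  (ρ : ∀ i, GMod 𝔤 G (M i))
  (ρV : GMod 𝔤 G ((∀ i, M i) × B)) (f : ContinuousMultilinearMap ℂ M ℂ) (p : B → ℂ),
    (∀ g y, ρV.act g y = (fun i => (ρ i).act g (y.1 i), y.2)) →
    (∀ g x, f (fun i => (ρ i).act g (x i)) = f x) →
    Differentiable ℂ p → (∀ z, p z = 0 → fderiv ℂ p z ≠ 0) →
    ∀ (x0 : ∀ i, M i), (∀ g i, (ρ i).act g (x0 i) = x0 i) → ∀ (b : B) (S : Finset ι),
    Covers ρV (fs f p) (fun y => {τ | ((∃ j, sl f y.1 j ≠ 0) ∨
      f (fun i => if i ∈ S then y.1 i + (fderiv ℂ p y.2 b) • x0 i else y.1 i) ≠ 0) ∧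
      fderiv ℂ (fs f p) y τ = 0})

/-- OF (`f ≠ 0` on the fixed vectors). PROOF (with BA, IS, IE, DS; CC, CF of SU). Let `b_1..b_n` be a
basis of `B`; by CF (over the finite set of the pairs `(i,S)`) and CC the union of the sets of BA and of IS for
all `b = b_i` and all `S` is covered. Let `y = (x,z)`, `F y = 0`, `fderiv F y τ = 0`. If some slope is nonzero:
BA. Otherwise `f x = sl f x j (x j) = 0 = p z` (`ι` nonempty), `dp(z) ≠ 0`, `t = dp(z)(b_i) ≠ 0` for some `i`. If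
`f(x + t x0_S) = 0` for all `S` then `f(t x0) = 0` (IE with `u = t x0`), but `f(t x0) = t^r f(x0) ≠ 0`
(`f.map_smul_univ`). So IS for some `S`. -/
def StOF : Prop := ∀ (𝔤 : Type) [NormedAddCommGroup 𝔤] [NormedSpace ℂ 𝔤]
  (G : Type) [TopologicalSpace G] [ChartedSpace 𝔤 G] [Group G] [LieGroup 𝓘(ℂ, 𝔤) ω G]
  (ι : Type) [Fintype ι] [DecidableEq ι] [Nonempty ι] (M : ι → Type)
  [∀ i, NormedAddCommGroup (M i)] [∀ i, NormedSpace ℂ (M i)] [∀ i, FiniteDimensional ℂ (M i)]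
  (B : Type) [NormedAddCommGroup B] [NormedSpace ℂ B] [FiniteDimensional ℂ B]
  (ρ : ∀ i, GMod 𝔤 G (M i))
  (ρV : GMod 𝔤 G ((∀ i, M i) × B)) (f : ContinuousMultilinearMap ℂ M ℂ) (p : B → ℂ),
    (∀ g y, ρV.act g y = (fun i => (ρ i).act g (y.1 i), y.2)) →
    (∀ g x, f (fun i => (ρ i).act g (x i)) = f x) →
    Differentiable ℂ p → (∀ z, p z = 0 → fderiv ℂ p z ≠ 0) →
    ∀ (x0 : ∀ i, M i), (∀ g i, (ρ i).act g (x0 i) = x0 i) → f x0 ≠ 0 → GElliptic ρV (fs f p)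

/-- NC (from the N-fixed locus of `Y` to `C`). PROOF. `s` on `W` the given spray of the fixed locus.
On `B × W` put `Z(z,w) = (s((0,z),w)).2`, same `σ`. Entire, equivariant (`ρV g (0,z) = (0, ρB g z)`). Let
`p z = 0`. `(0,z)` is in the set: `f 0 = 0` (`ι` nonempty: `f.map_zero`), and it is fixed by `N`. So
`Z(z,0) = z`; `s((0,z),w)` is in the set, so its first component consists of N-fixed vectors, `f = 0`
there, and `p(Z(z,w)) = 0`. Domination: `dp(z) b = 0`, `τ = (0,b)` is N-fixed and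
`fderiv (fs f p) (0,z) τ = ∑ sl f 0 j 0 - dp(z) b = 0` (DS); take `w` for `τ` and the second component. -/
def StNC : Prop := ∀ (𝔤 : Type) [NormedAddCommGroup 𝔤] [NormedSpace ℂ 𝔤]
  (G : Type) [TopologicalSpace G] [ChartedSpace 𝔤 G] [Group G] [LieGroup 𝓘(ℂ, 𝔤) ω G]
  (N : Subgroup G) (ι : Type) [Fintype ι] [DecidableEq ι] [Nonempty ι] (M : ι → Type)
  [∀ i, NormedAddCommGroup (M i)] [∀ i, NormedSpace ℂ (M i)] [∀ i, FiniteDimensional ℂ (M i)]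
  (B : Type) [NormedAddCommGroup B] [NormedSpace ℂ B] [FiniteDimensional ℂ B]
  (ρ : ∀ i, GMod 𝔤 G (M i)) (ρB : GMod 𝔤 G B)
  (ρV : GMod 𝔤 G ((∀ i, M i) × B)) (f : ContinuousMultilinearMap ℂ M ℂ) (p : B → ℂ),
    (∀ g y, ρV.act g y = (fun i => (ρ i).act g (y.1 i), ρB.act g y.2)) →
    Differentiable ℂ p → (∀ n ∈ N, ∀ z, ρB.act n z = z) →
    (∀ x : ∀ i, M i, (∀ n ∈ N, ∀ i, (ρ i).act n (x i) = x i) → f x = 0) →
    GEll ρV ({y | fs f p y = 0} ∩ {y | ∀ n ∈ N, ρV.act n y = y})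
      (fun y => {τ | fderiv ℂ (fs f p) y τ = 0} ∩ {τ | ∀ n ∈ N, ρV.act n τ = τ}) →
    GElliptic ρB p

end Pool.Agent.Work.MP_e4a69c_an.ML
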